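import Pool.Agent.Lib.MP_04c118_nt.Family

/-!
# Two reflected Sidon sets: sums cover seven eighths
-/

namespace Pool.MP_68c422_nt.Cov39

open Finset
open scoped Pointwise

/-- Sidon sets. -/
def Sid {K : Type*} [AddCommGroup K] (D : Finset K) : Prop :=
  ∀ x ∈ D, ∀ y ∈ D, ∀ z ∈ D, ∀ w ∈ D, x + y = z + w → (x = z ∧ y = w) ∨ (x = w ∧ y = z)

section

variable {K : Type*} [AddCommGroup K] [DecidableEq K]

theorem card_add {D : Finset K} (h : Sid D) : 2 * (D + D).card = D.card * (D.card + 1) := by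
  have h1 : D + D = D.sym2.image (Sym2.lift ⟨fun x y => x + y, fun x y => add_comm x y⟩) := by
    ext s
    rw [mem_add, mem_image]
    constructor
    · rintro ⟨x, hx, y, hy, rfl⟩
      exact ⟨s(x, y), mk_mem_sym2_iff.mpr ⟨hx, hy⟩, rfl⟩
    · rintro ⟨e, he, rfl⟩
      induction e with
      | _ x y =>
        rw [mk_mem_sym2_iff] at he
        exact ⟨x, he.1, y, he.2, rfl⟩
  have h2 : (D + D).card = D.sym2.card := by
    rw [h1]
    refine card_image_of_injOn ?_
    intro e he f hf hef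
    induction e with
    | _ x y =>
      induction f with
      | _ z w =>
        rw [mem_coe, mk_mem_sym2_iff] at he hf
        have h3 : x + y = z + w := hef
        rw [Sym2.eq_iff]
        exact h x he.1 y he.2 z hf.1 w hf.2 h3
  rw [h2, card_sym2, Nat.choose_two_right, Nat.add_sub_cancel, mul_comm (D.card + 1)]
  exact Nat.mul_div_cancel' (Nat.even_mul_succ_self D.card).two_dvd

theorem card_sub {D : Finset K} (h : Sid D) (hD : D.Nonempty) :
    D.card * D.card + 1 ≤ (D - D).card + D.card := by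
  have h1 : insert 0 (D.offDiag.image fun p => p.1 - p.2) ⊆ D - D := by
    intro s hs
    rw [mem_insert, mem_image] at hs
    rw [mem_sub]
    rcases hs with rfl | ⟨p, hp, rfl⟩
    · obtain ⟨x, hx⟩ := hD
      exact ⟨x, hx, x, hx, sub_self x⟩
    · rw [mem_offDiag] at hp
      exact ⟨p.1, hp.1, p.2, hp.2.1, rfl⟩
  have h2 := card_le_card h1
  rw [card_insert_of_notMem, card_image_of_injOn, offDiag_card] at h2
  · have : D.card ≤ D.card * D.card := Nat.le_mul_self _
    omega
  · intro p hp r hr hpr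
    rw [mem_coe, mem_offDiag] at hp hr
    have h3 : p.1 + r.2 = r.1 + p.2 := by
      have : p.1 - p.2 = r.1 - r.2 := hpr
      rw [sub_eq_sub_iff_add_eq_add] at this
      exact this
    rcases h _ hp.1 _ hr.2.1 _ hr.1 _ hp.2.1 h3 with h4 | h4
    · exact Prod.ext h4.1 h4.2.symm
    · exact absurd h4.1 hp.2.2
  · rw [mem_image]
    rintro ⟨p, hp, h3⟩
    rw [mem_offDiag] at hp
    exact hp.2.2 (sub_eq_zero.mp h3)

theorem exists_translate [Fintype K] (hodd : Function.Injective fun x : K => x + x)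
    (S : Finset K) : ∃ t : K,
    (S.filter fun x => t + t - x ∈ S).card * Fintype.card K ≤ S.card * S.card := by
  by_contra hcon
  push Not at hcon
  have h1 : ∑ t : K, (S.filter fun x => t + t - x ∈ S).card = S.card * S.card := by
    simp only [card_filter]
    rw [sum_comm]
    have h2 : ∀ x ∈ S, ∑ t : K, (if t + t - x ∈ S then 1 else 0) = S.card := by
      intro x _
      have h3 : Function.Bijective fun t : K => t + t - x := by
        rw [← Finite.injective_iff_bijective]
        intro a b hab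
        exact hodd (sub_left_injective hab)
      rw [Function.Bijective.sum_comp h3 (fun y => if y ∈ S then 1 else 0)]
      simp
    rw [sum_congr rfl h2]
    simp
  have h3 : ∑ t : K, S.card * S.card < ∑ t : K,
      (S.filter fun x => t + t - x ∈ S).card * Fintype.card K :=
    sum_lt_sum_of_nonempty ⟨0, mem_univ _⟩ fun t _ => hcon t
  have h4 : ∑ t : K, (S.filter fun x => t + t - x ∈ S).card * Fintype.card K =
      S.card * S.card * Fintype.card K := by rw [← sum_mul, h1]
  rw [h4, sum_const, card_univ, smul_eq_mul, mul_comm] at h3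
  exact lt_irrefl _ h3

/-- The set `D × {0} ∪ (t - D) × {1}`. -/
def AA (D : Finset K) (t : K) : Finset (ZMod 2 × K) :=
  (D.image fun x => ((0 : ZMod 2), x)) ∪ (D.image fun x => ((1 : ZMod 2), t - x))

theorem card_AA (D : Finset K) (t : K) : (AA D t).card = 2 * D.card := by
  unfold AA
  rw [card_union_of_disjoint, card_image_of_injective, card_image_of_injective]
  · ring
  · intro x y hxy
    exact sub_right_injective (Prod.ext_iff.mp hxy).2
  · intro x y hxy
    exact (Prod.ext_iff.mp hxy).2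
  · rw [disjoint_left]
    intro p hp hp'
    rw [mem_image] at hp hp'
    obtain ⟨x, _, rfl⟩ := hp
    obtain ⟨y, _, hy⟩ := hp'
    have : (1 : ZMod 2) = 0 := (Prod.ext_iff.mp hy).1
    exact absurd this (by decide)

theorem card_AA_add [Fintype K] (D : Finset K) (t : K) :
    2 * (D + D).card + (D - D).card ≤
      (AA D t + AA D t).card + ((D + D).filter fun x => t + t - x ∈ D + D).card := by
  have m0 : ∀ x ∈ D, ((0 : ZMod 2), x) ∈ AA D t := fun x hx => by
    unfold AA; rw [mem_union]; left; exact mem_image_of_mem _ hx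
  have m1 : ∀ x ∈ D, ((1 : ZMod 2), t - x) ∈ AA D t := fun x hx => by
    unfold AA; rw [mem_union]; right
    exact mem_image_of_mem (fun x => ((1 : ZMod 2), t - x)) hx
  obtain ⟨S', hS'⟩ : ∃ S', S' = (D + D).image fun x => t + t - x := ⟨_, rfl⟩
  have hS'c : S'.card = (D + D).card := by
    rw [hS', card_image_of_injective _ sub_right_injective]
  have h1 : ((D + D) ∪ S').image (fun x => ((0 : ZMod 2), x)) ∪
      (D - D).image (fun x => ((1 : ZMod 2), t + x)) ⊆ AA D t + AA D t := by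
    intro p hp
    rw [mem_union] at hp
    rw [mem_add]
    rcases hp with hp | hp
    · rw [mem_image] at hp
      obtain ⟨s, hs, rfl⟩ := hp
      rw [mem_union] at hs
      rcases hs with hs | hs
      · obtain ⟨x, hx, y, hy, rfl⟩ := mem_add.mp hs
        exact ⟨_, m0 x hx, _, m0 y hy, by simp⟩
      · rw [hS', mem_image] at hs
        obtain ⟨s', hs', rfl⟩ := hs
        obtain ⟨x, hx, y, hy, rfl⟩ := mem_add.mp hs'
        refine ⟨_, m1 x hx, _, m1 y hy, ?_⟩
        refine Prod.ext ?_ ?_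
        · change (1 : ZMod 2) + 1 = 0
          decide
        · change t - x + (t - y) = t + t - (x + y)
          abel
    · rw [mem_image] at hp
      obtain ⟨s, hs, rfl⟩ := hp
      obtain ⟨x, hx, y, hy, rfl⟩ := mem_sub.mp hs
      refine ⟨_, m0 x hx, _, m1 y hy, ?_⟩
      refine Prod.ext ?_ ?_
      · change (0 : ZMod 2) + 1 = 1
        decide
      · change x + (t - y) = t + (x - y)
        abel
  have h2 := card_le_card h1
  rw [card_union_of_disjoint, card_image_of_injective, card_image_of_injective] at h2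
  · have h3 := card_union_add_card_inter (D + D) S'
    have h4 : (D + D) ∩ S' = (D + D).filter fun x => t + t - x ∈ D + D := by
      ext x
      rw [mem_inter, mem_filter, hS', mem_image]
      constructor
      · rintro ⟨hx, y, hy, rfl⟩
        refine ⟨hx, ?_⟩
        have : t + t - (t + t - y) = y := by abel
        rw [this]; exact hy
      · rintro ⟨hx, hy⟩
        exact ⟨hx, _, hy, by abel⟩
    rw [h4] at h3
    omega
  · intro x y hxy
    exact add_right_injective t (Prod.ext_iff.mp hxy).2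
  · intro x y hxy
    exact (Prod.ext_iff.mp hxy).2
  · rw [disjoint_left]
    intro p hp hp'
    rw [mem_image] at hp hp'
    obtain ⟨x, _, rfl⟩ := hp
    obtain ⟨y, _, hy⟩ := hp'
    have : (1 : ZMod 2) = 0 := (Prod.ext_iff.mp hy).1
    exact absurd this (by decide)

theorem seven_eighths [Fintype K] (hodd : Function.Injective fun x : K => x + x)
    {D : Finset K} (h : Sid D) {n : ℕ} (hn : D.card = n) (hn2 : 2 ≤ n)
    (hK : Fintype.card K = n ^ 2 - 1) : ∃ B : Finset (ZMod 2 × K), B.card = 2 * n ∧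
      14 * (n ^ 2 - 1) ≤ 8 * (B + B).card + 4 * n := by
  obtain ⟨t, ht⟩ := exists_translate hodd (D + D)
  refine ⟨AA D t, by rw [card_AA, hn], ?_⟩
  have h1 := card_AA_add D t
  have h2 := card_add h
  have h3 := card_sub h (card_pos.mp (by omega))
  rw [hn] at h2 h3
  rw [hK] at ht
  obtain ⟨o, ho⟩ : ∃ o, o = ((D + D).filter fun x => t + t - x ∈ D + D).card := ⟨_, rfl⟩
  rw [← ho] at h1 ht
  obtain ⟨S, hS⟩ : ∃ S, S = (D + D).card := ⟨_, rfl⟩
  rw [← hS] at h1 h2 ht
  obtain ⟨T, hT⟩ : ∃ T, T = (AA D t + AA D t).card := ⟨_, rfl⟩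
  rw [← hT] at h1 ⊢
  obtain ⟨U, hU⟩ : ∃ U, U = (D - D).card := ⟨_, rfl⟩
  rw [← hU] at h1 h3
  obtain ⟨m, rfl⟩ : ∃ m, n = m + 2 := ⟨n - 2, by omega⟩
  have e1 : (m + 2) ^ 2 - 1 = (m + 1) * (m + 3) := by
    have : (m + 2) ^ 2 = (m + 1) * (m + 3) + 1 := by ring
    omega
  rw [e1] at ht ⊢
  -- 4 o (m+1) ≤ (m+2)^2 (m+3)
  have h4 : 4 * o * (m + 1) ≤ (m + 2) ^ 2 * (m + 3) := by
    have h5 : 4 * o * (m + 1) * (m + 3) ≤ (m + 2) ^ 2 * (m + 3) * (m + 3) := by
      calc 4 * o * (m + 1) * (m + 3) = 4 * (o * ((m + 1) * (m + 3))) := by ring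
        _ ≤ 4 * (S * S) := Nat.mul_le_mul_left _ ht
        _ = (2 * S) * (2 * S) := by ring
        _ = ((m + 2) * (m + 2 + 1)) * ((m + 2) * (m + 2 + 1)) := by rw [h2]
        _ = (m + 2) ^ 2 * (m + 3) * (m + 3) := by ring
    exact Nat.le_of_mul_le_mul_right h5 (by omega)
  -- 4 o ≤ m^2 + 6 m + 13 ... as (m+2)^2 (m+3) = (m^2+6m+10)(m+1) + 2
  have h5 : 4 * o ≤ m ^ 2 + 6 * m + 12 := by
    by_contra hc
    push Not at hc
    have h6 : (m ^ 2 + 6 * m + 13) * (m + 1) ≤ 4 * o * (m + 1) := Nat.mul_le_mul_right _ hc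
    have h7 := h6.trans h4
    nlinarith
  have h6 : 2 * S + U ≤ T + o := h1
  nlinarith

end

/-- Transport to a cyclic group. -/
theorem transport {V : ℕ} [NeZero V] (hV : Nat.Coprime 2 V) {n : ℕ} (hn : 2 ≤ n)
    (hVn : V = n ^ 2 - 1) {D : Finset (ZMod V)} (h : Sid D) (hD : D.card = n) :
    ∃ A : Finset (ZMod (2 * V)), A.card = 2 * n ∧ 14 * V ≤ 8 * (A + A).card + 4 * n := by
  have hodd : Function.Injective fun x : ZMod V => x + x := by
    intro x y hxy
    have hu : IsUnit (2 : ZMod V) := by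
      have := (ZMod.isUnit_iff_coprime 2 V).mpr hV
      exact_mod_cast this
    have h1 : (2 : ZMod V) * x = 2 * y := by
      rw [two_mul, two_mul]; exact hxy
    exact hu.mul_left_cancel h1
  have hK : Fintype.card (ZMod V) = n ^ 2 - 1 := by rw [ZMod.card, ← hVn]
  obtain ⟨B, hB1, hB2⟩ := seven_eighths hodd h hD hn hK
  let e := (ZMod.chineseRemainder hV).symm
  refine ⟨B.image e, ?_, ?_⟩
  · rw [card_image_of_injective _ e.injective, hB1]
  · have h1 : B.image e + B.image e = (B + B).image e := by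
      exact (Finset.image_add (e : ZMod 2 × ZMod V →+ ZMod (2 * V))).symm
    rw [h1, card_image_of_injective _ e.injective]
    rw [← hVn] at hB2
    exact hB2

theorem coverage : ∀ m : ℕ, ∃ q : ℕ, m ≤ q ∧ 0 < q ∧ ∃ A : Finset (ZMod q),
    A.card ^ 2 = 2 * q + 4 ∧ 7 * q ≤ 8 * (A + A).card + 2 * A.card := by
  intro m
  obtain ⟨l, hl⟩ : ∃ l, l = m + 1 := ⟨_, rfl⟩
  have hl0 : 0 < l := by omega
  haveI : Fact (Nat.Prime 2) := ⟨Nat.prime_two⟩
  obtain ⟨n, hn⟩ : ∃ n, n = 2 ^ l := ⟨_, rfl⟩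
  have hnl : l < n := by rw [hn]; exact Nat.lt_two_pow_self
  have hn2 : 2 ≤ n := by omega
  let F := GaloisField 2 (2 * l)
  haveI : Fintype F := Fintype.ofFinite F
  classical
  have hF : Fintype.card F = (2 ^ l) ^ 2 := by
    rw [← Nat.card_eq_fintype_card, GaloisField.card 2 (2 * l) (by omega), ← pow_mul, mul_comm]
  obtain ⟨V, hV⟩ : ∃ V, V = n ^ 2 - 1 := ⟨_, rfl⟩
  have hsq : 4 ≤ n ^ 2 := by nlinarith
  have hV0 : 0 < V := by omega
  haveI : NeZero V := ⟨by omega⟩
  obtain ⟨h, hgen⟩ := IsCyclic.exists_generator (α := Fˣ)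
  have hh : orderOf h = V := by
    rw [orderOf_eq_card_of_forall_mem_zpowers hgen, Nat.card_eq_fintype_card, Fintype.card_units,
      hF, hV, hn]
  have hc1 : (1 : F) ^ (2 ^ l) = 1 := one_pow _
  have hcard : (Agent.Lib.MP_04c118_nt.line (2 ^ l) (1 : F)).card = 2 ^ l :=
    Agent.Lib.MP_04c118_nt.line_card 2 l hl0 hF 1 hc1
  have hL0 : (0 : F) ∉ Agent.Lib.MP_04c118_nt.line (2 ^ l) (1 : F) := by
    rw [Agent.Lib.MP_04c118_nt.mem_line, zero_pow (by positivity), add_zero]
    exact zero_ne_one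
  obtain ⟨A, hA1, hA2⟩ := transport (V := V) (n := n)
    (D := Agent.Lib.MP_04c118_nt.logs V h (Agent.Lib.MP_04c118_nt.line (2 ^ l) (1 : F)))
    (by
      rw [hV, Nat.coprime_two_left]
      have h1 : Even (n ^ 2) := by
        rw [hn, Nat.even_pow]
        exact ⟨(Nat.even_pow.mpr ⟨even_two, by omega⟩), by omega⟩
      rcases h1 with ⟨k, hk⟩
      exact ⟨k - 1, by omega⟩) hn2 hV
    (Agent.Lib.MP_04c118_nt.logs_sidon V h hh _
      (fun x hx y hy z hz w hw => Agent.Lib.MP_04c118_nt.line_sidon (2 ^ l) (1 : F) one_ne_zero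
        x y z w hx hy hz hw))
    (by rw [Agent.Lib.MP_04c118_nt.logs_card V h hh hgen _ hL0, hcard, hn])
  refine ⟨2 * V, ?_, by omega, A, ?_, ?_⟩
  · have : n ≤ n ^ 2 - 1 := by
      have : n + 1 ≤ n ^ 2 := by nlinarith
      omega
    omega
  · rw [hA1]
    have h1 : n ^ 2 = V + 1 := by omega
    have h2 : (2 * n) ^ 2 = 4 * n ^ 2 := by ring
    rw [h2, h1]; ring
  · rw [hA1]
    omega

end Pool.MP_68c422_nt.Cov39
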