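import Pool.Agent.Lib.MP_68c422_nt.Diff39

/-!
# Near-extremal bases: almost symmetric, or many popular sums
-/

namespace Pool.MP_68c422_nt.Rep39

open Finset Filter Topology

theorem core {G : Type*} [AddCommGroup G] [Fintype G] [DecidableEq G] {A : Finset G} (h : Bas A)
    (N : ℕ) (hN : (univ.filter fun s => A.card < N * rp A s).card ≤ 2 * N) {ρ : ℝ}
    (hρ : ∀ s, (rp A s : ℝ) ≤ ρ) :
    ((A.card : ℝ) ^ 2 - A.card) ^ 2 ≤ (Fintype.card G : ℝ) *
      (ρ * (A.card + (2 * (N : ℝ)) ^ 2 * mu A) +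
        ∑ s ∈ univ.filter (fun s => N ≤ rp A s ∧ N * rp A s ≤ A.card), (rp A s : ℝ) ^ 2 +
        N * (W A + A.card) + 3 * (A.card : ℝ) ^ 2 - 4 * Fintype.card G) := by
  have hρ0 : 0 ≤ ρ := (Nat.cast_nonneg _).trans (hρ 0)
  have h1 : ∀ s, ((rp A s : ℝ) - 2) ^ 2 ≤
      (if A.card < N * rp A s then ρ * rp A s else 0) +
      (if N ≤ rp A s ∧ N * rp A s ≤ A.card then (rp A s : ℝ) ^ 2 else 0) +
      N * |(rp A s : ℝ) - 2| := by
    intro s
    have h2 := one_le_rp h s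
    have h2' : (1 : ℝ) ≤ rp A s := by exact_mod_cast h2
    have h3 := hρ s
    have h5 : (0 : ℝ) ≤ N * |(rp A s : ℝ) - 2| := by positivity
    by_cases h4 : A.card < N * rp A s
    · rw [if_pos h4, if_neg (fun h => by omega)]
      nlinarith
    · rw [if_neg h4, zero_add]
      by_cases h6 : N ≤ rp A s
      · rw [if_pos ⟨h6, by omega⟩]
        nlinarith
      · rw [if_neg (fun h => h6 h.1), zero_add]
        have h5 : rp A s + 1 ≤ N := by omega
        have h5' : (rp A s : ℝ) + 1 ≤ N := by exact_mod_cast h5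
        have h6 : |(rp A s : ℝ) - 2| ≤ N := by
          rw [abs_le]; constructor <;> linarith
        rw [← sq_abs, sq]
        exact mul_le_mul_of_nonneg_right h6 (abs_nonneg _)
  obtain ⟨M, hM⟩ : ∃ M, M = ∑ s ∈ univ.filter (fun s => N ≤ rp A s ∧ N * rp A s ≤ A.card),
    (rp A s : ℝ) ^ 2 := ⟨_, rfl⟩
  have h2 : ∑ s, ((rp A s : ℝ) - 2) ^ 2 ≤
      ρ * (A.card + (2 * (N : ℝ)) ^ 2 * mu A) + M + N * (W A + A.card) := by
    calc ∑ s, ((rp A s : ℝ) - 2) ^ 2
        ≤ ∑ s, ((if A.card < N * rp A s then ρ * rp A s else 0) +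
          (if N ≤ rp A s ∧ N * rp A s ≤ A.card then (rp A s : ℝ) ^ 2 else 0) +
          N * |(rp A s : ℝ) - 2|) := sum_le_sum fun s _ => h1 s
      _ = ρ * ∑ s ∈ univ.filter (fun s => A.card < N * rp A s), (rp A s : ℝ) + M +
          N * ∑ s, |(rp A s : ℝ) - 2| := by
          rw [sum_add_distrib, sum_add_distrib, ← sum_filter, ← mul_sum, ← mul_sum, ← sum_filter,
            hM]
      _ ≤ _ := by
          refine add_le_add (add_le_add (mul_le_mul_of_nonneg_left ?_ hρ0) le_rfl)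
            (mul_le_mul_of_nonneg_left ?_ (Nat.cast_nonneg _))
          · refine (sum_blocks h _).trans ?_
            have h3 : (((univ.filter fun s => A.card < N * rp A s).card : ℝ)) ≤ 2 * N := by
              exact_mod_cast hN
            have h4 : ((univ.filter fun s => A.card < N * rp A s).card : ℝ) ^ 2 ≤
                (2 * (N : ℝ)) ^ 2 := pow_le_pow_left₀ (Nat.cast_nonneg _) h3 2
            have := mul_le_mul_of_nonneg_right h4 (mu_nonneg A)
            linarith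
          · refine (sum_abs_le h).trans (le_of_eq ?_)
            unfold W; ring
  rw [sum_sq] at h2
  rw [← hM]
  have h3 := energy_lower A
  obtain ⟨Z, hZ⟩ : ∃ Z, Z = ρ * (A.card + (2 * (N : ℝ)) ^ 2 * mu A) + M + N * (W A + A.card) +
    3 * (A.card : ℝ) ^ 2 - 4 * Fintype.card G := ⟨_, rfl⟩
  obtain ⟨q, hq⟩ : ∃ q : ℝ, q = Fintype.card G := ⟨_, rfl⟩
  rw [← hq] at h2 h3 hZ ⊢
  rw [← hZ]
  have hq1 : 1 ≤ q := by
    rw [hq]; exact_mod_cast (Fintype.card_pos (α := G))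
  have h4 : ∑ s, (rp A s : ℝ) ^ 2 - (A.card : ℝ) ^ 2 ≤ Z := by rw [hZ]; linarith
  have h5 : 0 ≤ ∑ s, (rp A s : ℝ) ^ 2 - (A.card : ℝ) ^ 2 := by
    rw [energy, ← rm_zero A]
    have := Finset.single_le_sum (f := fun d => (rm A d : ℝ) ^ 2)
      (fun d _ => by positivity) (mem_univ (0 : G))
    linarith
  calc ((A.card : ℝ) ^ 2 - A.card) ^ 2
      ≤ (q - 1) * (∑ s, (rp A s : ℝ) ^ 2 - (A.card : ℝ) ^ 2) := h3
    _ ≤ q * Z := mul_le_mul (by linarith) h4 h5 (by linarith)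

/-- Few sums have more than `|A| / N` representations. -/
theorem few {G : Type*} [AddCommGroup G] [Fintype G] [DecidableEq G] {A : Finset G} (h : Bas A)
    (N : ℕ) (hk : (2 * (N : ℝ)) ^ 2 * mu A < A.card) :
    (univ.filter fun s => A.card < N * rp A s).card ≤ 2 * N := by
  by_contra hcon
  push Not at hcon
  obtain ⟨P, hP, hPc⟩ := exists_subset_card_eq hcon.le
  have h1 := sum_blocks h P
  rw [hPc] at h1
  have h2 : (2 * N : ℕ) * (A.card : ℝ) ≤ N * ∑ s ∈ P, (rp A s : ℝ) := by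
    rw [← hPc, mul_sum, ← nsmul_eq_mul]
    refine card_nsmul_le_sum P _ _ fun s hs => ?_
    have := (mem_filter.mp (hP hs)).2
    exact_mod_cast this.le
  have h3 : (N : ℝ) * ∑ s ∈ P, (rp A s : ℝ) ≤ N * (A.card + ((2 * N : ℕ) : ℝ) ^ 2 * mu A) :=
    mul_le_mul_of_nonneg_left h1 (Nat.cast_nonneg _)
  push_cast at h2 h3
  rcases Nat.eq_zero_or_pos N with hN | hN
  · subst hN
    simp at hcon
  · have hN' : (0 : ℝ) < N := by exact_mod_cast hN
    have h4 := h2.trans h3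
    have h5 : (N : ℝ) * (2 * A.card) ≤ N * (A.card + (2 * N : ℝ) ^ 2 * mu A) := by linarith
    have h6 := le_of_mul_le_mul_left h5 hN'
    linarith

theorem real_lim (η : ℝ) (hη : 0 < η) (N : ℝ) : ∃ ε : ℝ, 0 < ε ∧ ∃ q₀ : ℕ, ∀ k q : ℝ,
    (q₀ : ℝ) ≤ q → 0 ≤ k → 2 * q ≤ k ^ 2 + 2 → k ^ 2 ≤ (2 + ε) * q →
    (2 * N) ^ 2 * (1 + Real.sqrt (2 * (k ^ 2 - 2 * q + k) + 1)) < k ∧
    q * ((1 - η) * k * (k + (2 * N) ^ 2 * (1 + Real.sqrt (2 * (k ^ 2 - 2 * q + k) + 1))) +
      η / 2 * k ^ 2 + N * ((k ^ 2 - 2 * q + k) + k) + 3 * k ^ 2 - 4 * q) <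
        (k ^ 2 - k) ^ 2 := by
  by_contra hcon
  push Not at hcon
  have h1 := fun n : ℕ => hcon (1 / ((n : ℝ) + 1)) (by positivity) (n + 1)
  choose k q hq hk0 hlo hup hin using h1
  have hqpos : ∀ n, 0 < q n := fun n => by
    have := hq n
    push_cast at this
    have h2 : (0 : ℝ) ≤ n := Nat.cast_nonneg n
    linarith
  have hqt : Tendsto q atTop atTop := by
    refine tendsto_atTop_mono (fun n => ?_) (tendsto_natCast_atTop_atTop (R := ℝ))
    have := hq n
    push_cast at this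
    linarith
  have hqi : Tendsto (fun n => 1 / q n) atTop (𝓝 0) := by
    simp only [one_div]
    exact hqt.inv_tendsto_atTop
  have ha : Tendsto (fun n => k n ^ 2 / q n) atTop (𝓝 2) := by
    have l1 : Tendsto (fun n => 2 - 2 * (1 / q n)) atTop (𝓝 2) := by
      simpa using (tendsto_const_nhds (x := (2 : ℝ))).sub (hqi.const_mul 2)
    have l2 : Tendsto (fun n : ℕ => 2 + 1 / ((n : ℝ) + 1)) atTop (𝓝 2) := by
      simpa using (tendsto_const_nhds (x := (2 : ℝ))).add tendsto_one_div_add_atTop_nhds_zero_nat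
    refine tendsto_of_tendsto_of_tendsto_of_le_of_le l1 l2 (fun n => ?_) (fun n => ?_)
    · have := hqpos n
      dsimp only
      rw [le_div_iff₀ this]
      have e : (2 - 2 * (1 / q n)) * q n = 2 * q n - 2 := by field_simp
      rw [e]
      linarith [hlo n]
    · have := hqpos n
      dsimp only
      rw [div_le_iff₀ this]
      exact hup n
  have hb : Tendsto (fun n => k n / q n) atTop (𝓝 0) := by
    have e : (fun n => k n / q n) = fun n => Real.sqrt (k n ^ 2 / q n * (1 / q n)) := by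
      funext n
      have := hqpos n
      have e1 : k n ^ 2 / q n * (1 / q n) = (k n / q n) ^ 2 := by field_simp
      rw [e1, Real.sqrt_sq (div_nonneg (hk0 n) this.le)]
    rw [e]
    have := (Real.continuous_sqrt.tendsto (2 * 0)).comp (ha.mul hqi)
    rw [mul_zero, Real.sqrt_zero] at this
    exact this
  have hw : Tendsto (fun n => k n ^ 2 / q n - 2 + k n / q n) atTop (𝓝 0) := by
    have := (ha.sub (tendsto_const_nhds (x := (2 : ℝ)))).add hb
    simpa using this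
  have hc : Tendsto (fun n => k n / q n + Real.sqrt (k n ^ 2 / q n *
      (2 * (k n ^ 2 / q n - 2 + k n / q n) + 1 / q n))) atTop (𝓝 0) := by
    have h2 := ha.mul ((hw.const_mul 2).add hqi)
    have h3 := (Real.continuous_sqrt.tendsto (2 * (2 * 0 + 0))).comp h2
    have h4 := hb.add h3
    have e : (0 : ℝ) + Real.sqrt (2 * (2 * 0 + 0)) = 0 := by norm_num
    rw [e] at h4
    exact h4
  have e1 : ∀ n, Real.sqrt (k n ^ 2 / q n * (2 * (k n ^ 2 / q n - 2 + k n / q n) + 1 / q n)) =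
      k n / q n * Real.sqrt (2 * (k n ^ 2 - 2 * q n + k n) + 1) := by
    intro n
    have hp := hqpos n
    have e2 : k n ^ 2 / q n * (2 * (k n ^ 2 / q n - 2 + k n / q n) + 1 / q n) =
        (k n / q n) ^ 2 * (2 * (k n ^ 2 - 2 * q n + k n) + 1) := by field_simp
    rw [e2, Real.sqrt_mul (by positivity), Real.sqrt_sq (div_nonneg (hk0 n) hp.le)]
  -- the first inequality holds eventually
  have hfirst : ∀ᶠ n in atTop,
      (2 * N) ^ 2 * (1 + Real.sqrt (2 * (k n ^ 2 - 2 * q n + k n) + 1)) < k n := by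
    have l1 := hc.const_mul ((2 * N) ^ 2)
    rw [mul_zero] at l1
    have l2 := l1.eventually_lt ha (by norm_num)
    filter_upwards [l2] with n hn
    have hp := hqpos n
    rw [e1] at hn
    rw [lt_div_iff₀ hp] at hn
    have e3 : (2 * N) ^ 2 * (k n / q n + k n / q n *
        Real.sqrt (2 * (k n ^ 2 - 2 * q n + k n) + 1)) * q n =
        k n * ((2 * N) ^ 2 * (1 + Real.sqrt (2 * (k n ^ 2 - 2 * q n + k n) + 1))) := by
      field_simp
    rw [e3] at hn
    exact lt_of_mul_lt_mul_left (hn.trans_eq (sq (k n))) (hk0 n)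
  have key : ∀ᶠ n in atTop, (k n ^ 2 / q n - k n / q n) ^ 2 ≤
      (1 - η) * (k n ^ 2 / q n + (2 * N) ^ 2 * (k n / q n + Real.sqrt (k n ^ 2 / q n *
      (2 * (k n ^ 2 / q n - 2 + k n / q n) + 1 / q n)))) + η / 2 * (k n ^ 2 / q n) +
      N * ((k n ^ 2 / q n - 2 + k n / q n) + k n / q n) + 3 * (k n ^ 2 / q n) - 4 := by
    filter_upwards [hfirst] with n hn
    have hp := hqpos n
    rw [e1]
    have h2 := hin n hn
    have h3 := div_le_div_of_nonneg_right h2 (show 0 ≤ q n ^ 2 by positivity)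
    refine (le_of_eq ?_).trans (h3.trans (le_of_eq ?_))
    · field_simp
    · field_simp
  have hl : Tendsto (fun n => (k n ^ 2 / q n - k n / q n) ^ 2) atTop (𝓝 ((2 - 0) ^ 2)) :=
    (ha.sub hb).pow 2
  have hr : Tendsto (fun n => (1 - η) * (k n ^ 2 / q n + (2 * N) ^ 2 * (k n / q n +
      Real.sqrt (k n ^ 2 / q n *
      (2 * (k n ^ 2 / q n - 2 + k n / q n) + 1 / q n)))) + η / 2 * (k n ^ 2 / q n) +
      N * ((k n ^ 2 / q n - 2 + k n / q n) + k n / q n) + 3 * (k n ^ 2 / q n) - 4) atTop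
      (𝓝 ((1 - η) * (2 + (2 * N) ^ 2 * 0) + η / 2 * 2 + N * (0 + 0) + 3 * 2 - 4)) :=
    (((((ha.add (hc.const_mul _)).const_mul _).add (ha.const_mul _)).add
      ((hw.add hb).const_mul _)).add (ha.const_mul 3)).sub tendsto_const_nhds
  have := le_of_tendsto_of_tendsto hl hr key
  norm_num at this
  linarith

/-- **The dichotomy.** -/
theorem dichotomy (η : ℝ) (hη : 0 < η) (N : ℕ) : ∃ ε : ℝ, 0 < ε ∧ ∃ q₀ : ℕ,
    ∀ (G : Type*) [AddCommGroup G] [Fintype G] [DecidableEq G] (A : Finset G), Bas A →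
    q₀ ≤ Fintype.card G → (A.card : ℝ) ^ 2 ≤ (2 + ε) * Fintype.card G →
    (∃ s, (1 - η) * (A.card : ℝ) ≤ rp A s) ∨
    η / 2 * (A.card : ℝ) ^ 2 ≤
      ∑ s ∈ univ.filter (fun s => N ≤ rp A s ∧ N * rp A s ≤ A.card), (rp A s : ℝ) ^ 2 := by
  obtain ⟨ε, hε, q₀, H⟩ := real_lim η hη N
  refine ⟨ε, hε, q₀, ?_⟩
  intro G _ _ _ A hA hq hk
  by_contra hcon
  push Not at hcon
  obtain ⟨h1, h2⟩ := hcon
  obtain ⟨h5, h4⟩ := H A.card (Fintype.card G) (by exact_mod_cast hq) (Nat.cast_nonneg _)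
    (by exact_mod_cast two_card_le hA) hk
  have h3 := core hA N (few hA N h5) (ρ := (1 - η) * A.card) (fun s => (h1 s).le)
  obtain ⟨M, hM⟩ : ∃ M, M = ∑ s ∈ univ.filter (fun s => N ≤ rp A s ∧ N * rp A s ≤ A.card),
    (rp A s : ℝ) ^ 2 := ⟨_, rfl⟩
  rw [← hM] at h2 h3
  unfold mu W at h3
  have hq0 : (0 : ℝ) ≤ Fintype.card G := Nat.cast_nonneg _
  have h6 := mul_le_mul_of_nonneg_left h2.le hq0
  linarith

end Pool.MP_68c422_nt.Rep39
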