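import Pool.Agent.Lib.MP_68c422_nt.Rep39

/-!
# Differences, disjointness of the symmetric blocks, and character sums
-/

namespace Pool.MP_68c422_nt.Rep39

open Finset

variable {G : Type*} [AddCommGroup G] [Fintype G] [DecidableEq G]

/-- A finite set with a fixed-point-free involution has even cardinality. -/
theorem even_card {α : Type*} [DecidableEq α] (X : Finset α) (g : α → α)
    (hmem : ∀ a ∈ X, g a ∈ X) (hinv : ∀ a ∈ X, g (g a) = a) (hne : ∀ a ∈ X, g a ≠ a) :
    Even X.card := by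
  have h : ∑ _a ∈ X, (1 : ZMod 2) = 0 := by
    refine Finset.sum_involution (fun a _ => g a) (fun a _ => by decide)
      (fun a ha _ => hne a ha) (fun a ha => hmem a ha) (fun a ha => hinv a ha)
  rw [sum_const, nsmul_eq_mul, mul_one] at h
  exact (ZMod.natCast_eq_zero_iff_even).mp h

/-- The elements `a` of `A` with `a + d ∈ A`. -/
def Ad (A : Finset G) (d : G) : Finset G := A.filter fun a => a + d ∈ A

/-- The condition on the pairs which are counted. -/
def Cd (d a b : G) : Prop := b ≠ a ∧ ¬ (b = a + d ∧ d + d = 0)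

instance (d a b : G) : Decidable (Cd d a b) := by unfold Cd; infer_instance

/-- The first coordinates of the pairs with sum `s - d`. -/
def XX (A : Finset G) (d s : G) : Finset G :=
  (Ad A d).filter fun a => s - d - a ∈ Ad A d ∧ Cd d a (s - d - a)

theorem mem_Ad {A : Finset G} {d a : G} : a ∈ Ad A d ↔ a ∈ A ∧ a + d ∈ A := by
  unfold Ad; rw [mem_filter]

theorem XX_even (A : Finset G) (d s : G) : Even (XX A d s).card := by
  refine even_card _ (fun a => s - d - a) ?_ ?_ ?_
  · intro a ha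
    unfold XX at ha ⊢
    rw [mem_filter] at ha ⊢
    obtain ⟨h1, h2, h3, h4⟩ := ha
    have e : s - d - (s - d - a) = a := by abel
    refine ⟨h2, by rw [e]; exact h1, by rw [e]; exact fun h => h3 h.symm, ?_⟩
    rw [e]
    rintro ⟨h5, h6⟩
    apply h4
    refine ⟨?_, h6⟩
    have : (s - d - a) = (s - d - a) + d + d - (d + d) := by abel
    rw [this, h6, ← h5]; simp
  · intro a _
    abel
  · intro a ha
    unfold XX at ha
    rw [mem_filter] at ha
    exact ha.2.2.1

theorem XX_le (A : Finset G) (d s : G) : (XX A d s).card ≤ rp A s := by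
  unfold rp
  refine card_le_card fun a ha => ?_
  unfold XX at ha
  rw [mem_filter] at ha
  rw [mem_filter]
  refine ⟨(mem_Ad.mp ha.1).1, ?_⟩
  have := (mem_Ad.mp ha.2.1).2
  have e : s - d - a + d = s - a := by abel
  rwa [e] at this

theorem three_le {A : Finset G} {d s : G} (hd : d ≠ 0) (h : (XX A d s).Nonempty) :
    3 ≤ rp A s := by
  obtain ⟨a, ha⟩ := h
  unfold XX at ha
  rw [mem_filter] at ha
  obtain ⟨h1, h2, h3, h4⟩ := ha
  obtain ⟨b, hb⟩ : ∃ b, b = s - d - a := ⟨_, rfl⟩
  rw [← hb] at h2 h3 h4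
  rw [mem_Ad] at h1 h2
  have hs : s = a + b + d := by rw [hb]; abel
  have m1 : a ∈ A.filter fun x => s - x ∈ A := by
    rw [mem_filter]; refine ⟨h1.1, ?_⟩
    have : s - a = b + d := by rw [hs]; abel
    rw [this]; exact h2.2
  have m2 : b ∈ A.filter fun x => s - x ∈ A := by
    rw [mem_filter]; refine ⟨h2.1, ?_⟩
    have : s - b = a + d := by rw [hs]; abel
    rw [this]; exact h1.2
  have m3 : a + d ∈ A.filter fun x => s - x ∈ A := by
    rw [mem_filter]; refine ⟨h1.2, ?_⟩
    have : s - (a + d) = b := by rw [hs]; abel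
    rw [this]; exact h2.1
  have m4 : b + d ∈ A.filter fun x => s - x ∈ A := by
    rw [mem_filter]; refine ⟨h2.2, ?_⟩
    have : s - (b + d) = a := by rw [hs]; abel
    rw [this]; exact h1.1
  have key : ∀ x y z : G, x ∈ A.filter (fun x => s - x ∈ A) → y ∈ A.filter (fun x => s - x ∈ A) →
      z ∈ A.filter (fun x => s - x ∈ A) → x ≠ y → x ≠ z → y ≠ z → 3 ≤ rp A s := by
    intro x y z hx hy hz hxy hxz hyz
    have : ({x, y, z} : Finset G) ⊆ A.filter (fun x => s - x ∈ A) := by
      intro w hw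
      simp only [mem_insert, mem_singleton] at hw
      rcases hw with rfl | rfl | rfl
      · exact hx
      · exact hy
      · exact hz
    have h5 := card_le_card this
    rw [card_eq_three.mpr ⟨x, y, z, hxy, hxz, hyz, rfl⟩] at h5
    exact h5
  have had : a ≠ a + d := fun h => hd (by simpa using h.symm)
  by_cases h5 : b = a + d
  · have h6 : d + d ≠ 0 := fun h => h4 ⟨h5, h⟩
    have h7 : a ≠ b + d := by
      intro h7
      rw [h5, add_assoc] at h7
      exact h6 (by simpa using h7.symm)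
    have h8 : b ≠ b + d := fun h => hd (by simpa using h.symm)
    exact key a b (b + d) m1 m2 m4 (fun h => h3 h.symm) h7 h8
  · exact key a b (a + d) m1 m2 m3 (fun h => h3 h.symm) had h5

theorem XX_le_max {A : Finset G} {d : G} (hd : d ≠ 0) (s : G) :
    ((XX A d s).card : ℝ) ≤ 2 * max ((rp A s : ℝ) - 2) 0 := by
  rcases (XX A d s).eq_empty_or_nonempty with h | h
  · rw [h, card_empty]
    push_cast
    have := le_max_right ((rp A s : ℝ) - 2) 0
    linarith
  · have h3 := three_le hd h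
    have h4 := XX_le A d s
    have h5 := XX_even A d s
    have h6 : (XX A d s).card ≤ 2 * (rp A s - 2) := by
      rcases h5 with ⟨t, ht⟩
      have : 0 < (XX A d s).card := card_pos.mpr h
      omega
    have h7 : ((rp A s : ℝ) - 2) = ((rp A s - 2 : ℕ) : ℝ) := by
      rw [Nat.cast_sub (by omega)]; norm_num
    rw [max_eq_left (by rw [h7]; exact Nat.cast_nonneg _), h7]
    exact_mod_cast h6

theorem sum_XX (A : Finset G) (d : G) :
    (rm A d : ℝ) * ((rm A d : ℝ) - 2) ≤ ∑ s, ((XX A d s).card : ℝ) := by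
  have hm : (rm A d : ℝ) = (Ad A d).card := rfl
  have h1 : ∑ s, ((XX A d s).card : ℝ) =
      ∑ a ∈ Ad A d, ∑ b, (if b ∈ Ad A d ∧ Cd d a b then (1 : ℝ) else 0) := by
    have h2 : ∀ s, ((XX A d s).card : ℝ) =
        ∑ a ∈ Ad A d, (if s - d - a ∈ Ad A d ∧ Cd d a (s - d - a) then (1 : ℝ) else 0) := by
      intro s
      unfold XX
      rw [card_filter]; push_cast; rfl
    simp only [h2]
    rw [sum_comm]
    refine sum_congr rfl fun a _ => ?_
    refine Fintype.sum_equiv ((Equiv.subRight d).trans (Equiv.subRight a)) _ _ (fun s => ?_)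
    rfl
  have h2 : ∀ a ∈ Ad A d, (rm A d : ℝ) - 2 ≤
      ∑ b, (if b ∈ Ad A d ∧ Cd d a b then (1 : ℝ) else 0) := by
    intro a _
    have h3 : ∑ b, (if b ∈ Ad A d ∧ Cd d a b then (1 : ℝ) else 0) =
        ((univ.filter fun b => b ∈ Ad A d ∧ Cd d a b).card : ℝ) := by
      rw [card_filter]; push_cast; rfl
    rw [h3]
    have h4 : Ad A d ⊆ (univ.filter fun b => b ∈ Ad A d ∧ Cd d a b) ∪ {a, a + d} := by
      intro b hb
      rw [mem_union, mem_filter]
      by_cases h5 : b = a
      · right; rw [h5]; simp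
      · by_cases h6 : b = a + d
        · right; rw [h6]; simp
        · left
          exact ⟨mem_univ _, hb, h5, fun h => h6 h.1⟩
    have h5 := (card_le_card h4).trans (card_union_le _ _)
    have h6 : ({a, a + d} : Finset G).card ≤ 2 := card_le_two
    rw [hm]
    have h7 : (Ad A d).card ≤ (univ.filter fun b => b ∈ Ad A d ∧ Cd d a b).card + 2 := by omega
    have h8 : ((Ad A d).card : ℝ) ≤ (univ.filter fun b => b ∈ Ad A d ∧ Cd d a b).card + 2 := by
      exact_mod_cast h7
    linarith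
  rw [h1]
  have h3 := Finset.card_nsmul_le_sum (Ad A d) _ _ h2
  rw [nsmul_eq_mul, ← hm] at h3
  exact h3

/-- The excess. -/
noncomputable def W (A : Finset G) : ℝ := (A.card : ℝ) ^ 2 - 2 * Fintype.card G + A.card

theorem sum_pos_le {A : Finset G} (h : Bas A) : ∑ s, max ((rp A s : ℝ) - 2) 0 ≤ W A := by
  rw [sum_pos h]
  unfold W
  have : ((S1 A).card : ℝ) ≤ A.card := by exact_mod_cast card_S1 A
  linarith

theorem W_nonneg {A : Finset G} (h : Bas A) : 0 ≤ W A :=
  (sum_nonneg fun _ _ => le_max_right _ _).trans (sum_pos_le h)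

/-- **Nonzero differences have few representations.** -/
theorem rm_sq {A : Finset G} (h : Bas A) {d : G} (hd : d ≠ 0) :
    ((rm A d : ℝ) - 1) ^ 2 ≤ 2 * W A + 1 := by
  have h1 := sum_XX A d
  have h2 : ∑ s, ((XX A d s).card : ℝ) ≤ 2 * W A := by
    calc ∑ s, ((XX A d s).card : ℝ) ≤ ∑ s, 2 * max ((rp A s : ℝ) - 2) 0 :=
          sum_le_sum fun s _ => XX_le_max hd s
      _ = 2 * ∑ s, max ((rp A s : ℝ) - 2) 0 := (mul_sum _ _ _).symm
      _ ≤ _ := mul_le_mul_of_nonneg_left (sum_pos_le h) (by norm_num)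
  nlinarith

/-- The bound for the representations of differences. -/
noncomputable def mu (A : Finset G) : ℝ := 1 + Real.sqrt (2 * W A + 1)

theorem mu_nonneg (A : Finset G) : 0 ≤ mu A := by
  unfold mu; positivity

theorem rm_le_mu {A : Finset G} (h : Bas A) {d : G} (hd : d ≠ 0) : (rm A d : ℝ) ≤ mu A := by
  have h1 := Real.abs_le_sqrt (rm_sq h hd)
  have h2 := le_abs_self ((rm A d : ℝ) - 1)
  unfold mu
  linarith

theorem rm_mono {A X : Finset G} (hX : X ⊆ A) (d : G) : rm X d ≤ rm A d := by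
  unfold rm
  refine card_le_card fun a ha => ?_
  rw [mem_filter] at ha ⊢
  exact ⟨hX ha.1, hX ha.2⟩

open scoped Pointwise in
/-- **Subsets of bases have large difference sets.** -/
theorem card_sq_le {A X : Finset G} (h : Bas A) (hX : X ⊆ A) :
    (X.card : ℝ) ^ 2 ≤ X.card + (X - X).card * mu A := by
  have h1 : (X.card : ℝ) ^ 2 = ∑ d ∈ X - X, (rm X d : ℝ) := by
    rw [← sum_rm X]
    symm
    refine sum_subset (subset_univ _) fun d _ hd => ?_
    have h2 : X.filter (fun a => a + d ∈ X) = ∅ := by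
      rw [filter_eq_empty_iff]
      intro a ha hda
      apply hd
      rw [mem_sub]
      exact ⟨a + d, hda, a, ha, by abel⟩
    unfold rm
    rw [h2]; simp
  rw [h1]
  have h2 : ∀ d ∈ X - X, (rm X d : ℝ) ≤ (if d = 0 then (X.card : ℝ) else 0) + mu A := by
    intro d _
    by_cases hd : d = 0
    · rw [if_pos hd, hd, rm_zero]
      linarith [mu_nonneg A]
    · rw [if_neg hd, zero_add]
      exact le_trans (by exact_mod_cast rm_mono hX d) (rm_le_mu h hd)
  calc ∑ d ∈ X - X, (rm X d : ℝ)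
      ≤ ∑ d ∈ X - X, ((if d = 0 then (X.card : ℝ) else 0) + mu A) := sum_le_sum h2
    _ = (∑ d ∈ X - X, if d = 0 then (X.card : ℝ) else 0) + (X - X).card * mu A := by
        rw [sum_add_distrib]; simp
    _ ≤ _ := by
        refine add_le_add ?_ le_rfl
        rw [sum_ite_eq']
        split_ifs
        · exact le_rfl
        · exact Nat.cast_nonneg _

/-- **The symmetric blocks are almost disjoint.** -/
theorem sum_blocks {A : Finset G} (h : Bas A) (P : Finset G) :
    ∑ s ∈ P, (rp A s : ℝ) ≤ A.card + (P.card : ℝ) ^ 2 * mu A := by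
  have h1 : ∑ s ∈ P, (rp A s : ℝ) =
      ∑ a ∈ A, ((P.filter fun s => s - a ∈ A).card : ℝ) := by
    have h2 : ∀ s, (rp A s : ℝ) = ∑ a ∈ A, (if s - a ∈ A then (1 : ℝ) else 0) := by
      intro s; unfold rp; rw [card_filter]; push_cast; rfl
    have h3 : ∀ a, ((P.filter fun s => s - a ∈ A).card : ℝ) =
        ∑ s ∈ P, (if s - a ∈ A then (1 : ℝ) else 0) := by
      intro a; rw [card_filter]; push_cast; rfl
    simp only [h2, h3]
    rw [sum_comm]
  have h2 : ∀ a ∈ A, ((P.filter fun s => s - a ∈ A).card : ℝ) ≤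
      1 + ((P.filter fun s => s - a ∈ A).offDiag.card : ℝ) := by
    intro a _
    rw [offDiag_card]
    have h3 : (P.filter fun s => s - a ∈ A).card ≤ 1 + ((P.filter fun s => s - a ∈ A).card *
        (P.filter fun s => s - a ∈ A).card - (P.filter fun s => s - a ∈ A).card) := by
      rcases Nat.lt_or_ge (P.filter fun s => s - a ∈ A).card 2 with h4 | h4
      · omega
      · have h5 : 2 * (P.filter fun s => s - a ∈ A).card ≤ (P.filter fun s => s - a ∈ A).card *
            (P.filter fun s => s - a ∈ A).card := Nat.mul_le_mul_right _ h4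
        omega
    exact_mod_cast h3
  have h3 : ∑ a ∈ A, ((P.filter fun s => s - a ∈ A).offDiag.card : ℝ) ≤
      ∑ p ∈ P.offDiag, (rm A (p.2 - p.1) : ℝ) := by
    have h4 : ∀ a, (P.filter fun s => s - a ∈ A).offDiag =
        P.offDiag.filter fun p => p.1 - a ∈ A ∧ p.2 - a ∈ A := by
      intro a
      ext ⟨s, t⟩
      simp only [mem_offDiag, mem_filter]
      tauto
    have h5 : ∑ a ∈ A, ((P.filter fun s => s - a ∈ A).offDiag.card : ℝ) =
        ∑ p ∈ P.offDiag, ((A.filter fun a => p.1 - a ∈ A ∧ p.2 - a ∈ A).card : ℝ) := by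
      simp only [h4, card_filter]
      push_cast
      rw [sum_comm]
    rw [h5]
    refine sum_le_sum fun p _ => ?_
    have h6 : (A.filter fun a => p.1 - a ∈ A ∧ p.2 - a ∈ A).card ≤ rm A (p.2 - p.1) := by
      unfold rm
      refine card_le_card_of_injOn (fun a => p.1 - a) ?_ ?_
      · intro a ha
        rw [mem_coe, mem_filter] at ha
        rw [mem_coe, mem_filter]
        refine ⟨ha.2.1, ?_⟩
        have : p.1 - a + (p.2 - p.1) = p.2 - a := by abel
        rw [this]; exact ha.2.2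
      · intro a _ b _ hab
        exact sub_right_injective hab
    exact_mod_cast h6
  have h4 : ∑ p ∈ P.offDiag, (rm A (p.2 - p.1) : ℝ) ≤ (P.card : ℝ) ^ 2 * mu A := by
    calc ∑ p ∈ P.offDiag, (rm A (p.2 - p.1) : ℝ) ≤ ∑ _p ∈ P.offDiag, mu A := by
          refine sum_le_sum fun p hp => rm_le_mu h ?_
          rw [mem_offDiag] at hp
          exact fun h => hp.2.2 (sub_eq_zero.mp h).symm
      _ = (P.offDiag.card : ℝ) * mu A := by simp
      _ ≤ _ := by
          refine mul_le_mul_of_nonneg_right ?_ (mu_nonneg A)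
          rw [offDiag_card]
          have : P.card * P.card - P.card ≤ P.card ^ 2 := by rw [sq]; omega
          exact_mod_cast this
  rw [h1]
  calc ∑ a ∈ A, ((P.filter fun s => s - a ∈ A).card : ℝ)
      ≤ ∑ a ∈ A, (1 + ((P.filter fun s => s - a ∈ A).offDiag.card : ℝ)) := sum_le_sum h2
    _ = A.card + ∑ a ∈ A, ((P.filter fun s => s - a ∈ A).offDiag.card : ℝ) := by
        rw [sum_add_distrib]; simp
    _ ≤ _ := by linarith

/-- **Nontrivial character sums are small.** -/
theorem char_sq {A : Finset G} (h : Bas A) {χ : AddChar G ℂ} (hχ : χ ≠ 1) :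
    ‖∑ a ∈ A, χ a‖ ^ 2 ≤ (A.card : ℝ) ^ 2 - 2 * Fintype.card G + 2 * A.card := by
  have h1 : (∑ a ∈ A, χ a) ^ 2 = ∑ s, ((rp A s : ℝ) : ℂ) * χ s := by
    have h2 : ∀ s, ((rp A s : ℝ) : ℂ) * χ s =
        ∑ a ∈ A, (if s - a ∈ A then χ a * χ (s - a) else 0) := by
      intro s
      have h3 : ((rp A s : ℝ) : ℂ) = ∑ a ∈ A, (if s - a ∈ A then (1 : ℂ) else 0) := by
        unfold rp; rw [card_filter]; push_cast
        exact sum_congr rfl fun a _ => by split_ifs <;> simp
      rw [h3, sum_mul]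
      refine sum_congr rfl fun a _ => ?_
      split_ifs
      · rw [one_mul, ← AddChar.map_add_eq_mul]
        congr 1; abel
      · rw [zero_mul]
    simp only [h2]
    rw [sum_comm, sq, sum_mul]
    refine sum_congr rfl fun a _ => ?_
    rw [mul_sum]
    have h4 : ∑ s, (if s - a ∈ A then χ a * χ (s - a) else 0) =
        ∑ b, (if b ∈ A then χ a * χ b else 0) :=
      Fintype.sum_equiv (Equiv.subRight a) _ _ (fun s => rfl)
    rw [h4]
    simp
  have h2 : (∑ a ∈ A, χ a) ^ 2 = ∑ s, (((rp A s : ℝ) - 2 : ℝ) : ℂ) * χ s := by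
    rw [h1]
    have h3 : ∑ s, (((rp A s : ℝ) - 2 : ℝ) : ℂ) * χ s =
        ∑ s, ((rp A s : ℝ) : ℂ) * χ s - 2 * ∑ s, χ s := by
      rw [mul_sum, ← sum_sub_distrib]
      refine sum_congr rfl fun s _ => ?_
      push_cast; ring
    rw [h3, AddChar.sum_eq_zero_of_ne_one hχ]; simp
  rw [← norm_pow, h2]
  refine (norm_sum_le _ _).trans ?_
  have h3 : ∀ s, ‖(((rp A s : ℝ) - 2 : ℝ) : ℂ) * χ s‖ = |(rp A s : ℝ) - 2| := by
    intro s
    rw [norm_mul, Complex.norm_real, AddChar.norm_apply, mul_one, Real.norm_eq_abs]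
  simp only [h3]
  exact sum_abs_le h

end Pool.MP_68c422_nt.Rep39
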