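import Mathlib

set_option autoImplicit false

open scoped Pointwise

namespace Pool.MP_68c422_nt.Tr

/-- Slopes: for every `k` there are `k` distinct positive integers such that every difference of
two of them divides both. -/
theorem exists_slopes (k : ℕ) : ∃ c : Fin k → ℤ, (∀ i, 0 < c i) ∧
    ∀ i j, i ≠ j → c i - c j ≠ 0 ∧ (c i - c j) ∣ c j := by
  induction k with
  | zero => exact ⟨fun i => i.elim0, fun i => i.elim0, fun i => i.elim0⟩
  | succ k ih =>
    obtain ⟨c, hpos, hc⟩ := ih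
    set P : ℤ := (∏ i, c i) * ∏ p : Fin k × Fin k, (if p.1 = p.2 then 1 else (c p.1 - c p.2) ^ 2)
      with hP
    have hPpos : 0 < P := by
      rw [hP]
      apply mul_pos
      · exact Finset.prod_pos fun i _ => hpos i
      · apply Finset.prod_pos
        intro p _
        split_ifs with h
        · norm_num
        · exact pow_pos_of_ne p.1 p.2 c h hc
    have hdvd1 : ∀ i, c i ∣ P := by
      intro i
      rw [hP]
      exact Dvd.dvd.mul_right (Finset.dvd_prod_of_mem _ (Finset.mem_univ i)) _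
    have hdvd2 : ∀ i j, i ≠ j → (c i - c j) ∣ P := by
      intro i j hij
      rw [hP]
      apply Dvd.dvd.mul_left
      have h1 := Finset.dvd_prod_of_mem (fun p : Fin k × Fin k =>
        (if p.1 = p.2 then (1:ℤ) else (c p.1 - c p.2) ^ 2)) (Finset.mem_univ (i, j))
      simp only [hij, if_false] at h1
      exact dvd_trans (dvd_pow_self _ two_ne_zero) h1
    refine ⟨Fin.cons P (fun i => P + c i), ?_, ?_⟩
    · intro i
      refine Fin.cases ?_ (fun i => ?_) i
      · simpa using hPpos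
      · simp only [Fin.cons_succ]
        have := hpos i
        omega
    · intro i j
      refine Fin.cases ?_ (fun i => ?_) i <;> refine Fin.cases ?_ (fun j => ?_) j
      · intro h; exact absurd rfl h
      · intro _
        simp only [Fin.cons_succ, Fin.cons_zero]
        have e : P - (P + c j) = - c j := by ring
        rw [e]
        refine ⟨neg_ne_zero.mpr (hpos j).ne', ?_⟩
        rw [neg_dvd]
        exact dvd_add (hdvd1 j) dvd_rfl
      · intro _
        simp only [Fin.cons_succ, Fin.cons_zero]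
        have e : P + c i - P = c i := by ring
        rw [e]
        exact ⟨(hpos i).ne', hdvd1 i⟩
      · intro h
        have hij : i ≠ j := fun h' => h (by rw [h'])
        simp only [Fin.cons_succ]
        have e : P + c i - (P + c j) = c i - c j := by ring
        rw [e]
        exact ⟨(hc i j hij).1, dvd_add (hdvd2 i j hij) (hc i j hij).2⟩
where
  pow_pos_of_ne {k : ℕ} (i j : Fin k) (c : Fin k → ℤ) (h : ¬ i = j)
      (hc : ∀ i j, i ≠ j → c i - c j ≠ 0 ∧ (c i - c j) ∣ c j) : 0 < (c i - c j) ^ 2 := by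
    have := (hc i j h).1
    positivity

/-- Two lines of slopes `c ≠ d` with `(c - d) ∣ d` span the plane `ℤ/(N+1) × ℤ/N`. -/
theorem lines_span (c d δ : ℤ) (hδ : d = (c - d) * δ) (N K : ℕ) (hN : 0 < N)
    (hco : IsCoprime (c - d) (N : ℤ)) (hK : |δ| ≤ K) (s t : ℤ) :
    ∃ x y : ℤ, (-K ≤ x ∧ x ≤ N + K) ∧ (-K ≤ y ∧ y ≤ N + K) ∧
      ((N : ℤ) + 1) ∣ (x + y - s) ∧ (N : ℤ) ∣ (c * x + d * y - t) := by
  obtain ⟨a, b, hab⟩ := hco
  have hNz : (0:ℤ) < N := by exact_mod_cast hN
  set s0 : ℤ := s % (N + 1) with hs0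
  have hs0a : 0 ≤ s0 := Int.emod_nonneg _ (by omega)
  have hs0b : s0 < N + 1 := Int.emod_lt_of_pos _ (by omega)
  obtain ⟨q1, hq1⟩ : ((N:ℤ) + 1) ∣ s0 - s := by
    have := Int.emod_add_mul_ediv s (N + 1)
    exact ⟨-(s / (N + 1)), by rw [hs0]; linarith⟩
  set x0 : ℤ := (a * (t - d * s0)) % N with hx0
  have hx0a : 0 ≤ x0 := Int.emod_nonneg _ (by omega)
  have hx0b : x0 < N := Int.emod_lt_of_pos _ hNz
  obtain ⟨q2, hq2⟩ : (N:ℤ) ∣ (c - d) * x0 - (t - d * s0) := by
    have h1 := Int.emod_add_mul_ediv (a * (t - d * s0)) N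
    rw [← hx0] at h1
    have h2 : x0 = a * (t - d * s0) - N * (a * (t - d * s0) / N) := by linarith
    refine ⟨-(b * (t - d * s0)) - (c - d) * (a * (t - d * s0) / N), ?_⟩
    calc (c - d) * x0 - (t - d * s0)
        = (c - d) * (a * (t - d * s0) - N * (a * (t - d * s0) / N)) - (t - d * s0) := by rw [← h2]
      _ = (a * (c - d) + b * N - 1) * (t - d * s0)
          + N * (-(b * (t - d * s0)) - (c - d) * (a * (t - d * s0) / N)) := by ring
      _ = _ := by rw [hab]; ring
  have hδa := (abs_le.mp hK).1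
  have hδb := (abs_le.mp hK).2
  by_cases hle : x0 ≤ s0
  · refine ⟨x0, s0 - x0, ⟨by omega, by omega⟩, ⟨by omega, by omega⟩, ⟨q1, by linarith⟩, ⟨q2, ?_⟩⟩
    rw [← hq2]; ring
  · push Not at hle
    refine ⟨x0 - δ, s0 + N + 1 - x0 + δ, ⟨by omega, by omega⟩, ⟨by omega, by omega⟩,
      ⟨q1 + 1, by linarith⟩, ⟨q2 + d, ?_⟩⟩
    have h3 : (N:ℤ) * (q2 + d) = ((c - d) * x0 - (t - d * s0)) + N * d := by rw [hq2]; ring
    rw [h3]
    have h4 : c * (x0 - δ) + d * (s0 + N + 1 - x0 + δ) - t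
        = (c - d) * x0 - (t - d * s0) + N * d + (d - (c - d) * δ) := by ring
    rw [h4, ← hδ]; ring

/-- A system of `k` lines in the cyclic group `ℤ/(N(N+1))`, any two of which span the group.
For `N ≡ 1` modulo `L` the lines have the slopes `(N+1) c i - N` and length `N + 2K + 1`. -/
theorem lines (k : ℕ) : ∃ (c : Fin k → ℤ) (L K : ℕ), 0 < L ∧ ∀ n : ℕ, ∀ i j, i ≠ j → ∀ t : ℤ,
    ∃ x y : ℤ, (-(K:ℤ) ≤ x ∧ x ≤ ((L * n + 1 : ℕ) : ℤ) + K) ∧
      (-(K:ℤ) ≤ y ∧ y ≤ ((L * n + 1 : ℕ) : ℤ) + K) ∧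
      (((L * n + 1 : ℕ) : ℤ) * (((L * n + 1 : ℕ) : ℤ) + 1)) ∣
        (t - (((((L * n + 1 : ℕ) : ℤ) + 1) * c i - ((L * n + 1 : ℕ) : ℤ)) * x
          + ((((L * n + 1 : ℕ) : ℤ) + 1) * c j - ((L * n + 1 : ℕ) : ℤ)) * y)) := by
  obtain ⟨c, hpos, hc⟩ := exists_slopes k
  set L : ℤ := ∏ p : Fin k × Fin k, (if p.1 = p.2 then 1 else (c p.1 - c p.2) ^ 2) with hL
  have hLpos : 0 < L := by
    rw [hL]
    apply Finset.prod_pos
    intro p _
    split_ifs with h
    · norm_num
    · exact exists_slopes.pow_pos_of_ne p.1 p.2 c h hc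
  have hLdvd : ∀ i j, i ≠ j → (c i - c j) ∣ L := by
    intro i j hij
    rw [hL]
    have h1 := Finset.dvd_prod_of_mem (fun p : Fin k × Fin k =>
      (if p.1 = p.2 then (1:ℤ) else (c p.1 - c p.2) ^ 2)) (Finset.mem_univ (i, j))
    simp only [hij, if_false] at h1
    exact dvd_trans (dvd_pow_self _ two_ne_zero) h1
  set K : ℕ := ∑ i, (c i).natAbs with hK
  have hKb : ∀ i j, i ≠ j → ∀ δ : ℤ, c j = (c i - c j) * δ → |δ| ≤ K := by
    intro i j hij δ hδ
    have h1 : |δ| ≤ |c j| := by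
      rw [hδ, abs_mul]
      have : 1 ≤ |c i - c j| := Int.one_le_abs (hc i j hij).1
      nlinarith [abs_nonneg δ]
    have h2 : |c j| = ((c j).natAbs : ℤ) := by simp
    rw [h2] at h1
    have h3 : (c j).natAbs ≤ K := by
      rw [hK]
      exact Finset.single_le_sum (f := fun i => (c i).natAbs) (fun _ _ => Nat.zero_le _) (Finset.mem_univ j)
    calc |δ| ≤ ((c j).natAbs : ℤ) := h1
      _ ≤ K := by exact_mod_cast h3
  refine ⟨c, L.natAbs, K, Int.natAbs_pos.mpr hLpos.ne', ?_⟩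
  intro n i j hij t
  set N : ℕ := L.natAbs * n + 1 with hNdef
  obtain ⟨δ, hδ⟩ := (hc i j hij).2
  have hNpos : 0 < N := by omega
  have hco : IsCoprime (c i - c j) (N : ℤ) := by
    obtain ⟨e, he⟩ := hLdvd i j hij
    have h1 : (N : ℤ) = (c i - c j) * (e * n) + 1 := by
      rw [hNdef]
      push_cast
      rw [abs_of_pos hLpos, he]; ring
    rw [h1]
    exact ⟨-(e * n), 1, by ring⟩
  obtain ⟨x, y, hx, hy, ⟨q1, hq1⟩, ⟨q2, hq2⟩⟩ :=
    lines_span (c i) (c j) δ hδ N K hNpos hco (hKb i j hij δ hδ) t t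
  refine ⟨x, y, hx, hy, ?_⟩
  have hcop : IsCoprime (N : ℤ) ((N : ℤ) + 1) := ⟨-1, 1, by ring⟩
  apply hcop.mul_dvd
  · refine ⟨-(c i * x + c j * y) - q2 + (x + y), ?_⟩
    have : t = c i * x + c j * y - N * q2 := by linarith
    rw [this]; ring
  · refine ⟨-(c i * x + c j * y) - q1 + (x + y), ?_⟩
    have : t = x + y - (N + 1) * q1 := by linarith
    rw [this]; ring

/-- The transfer theorem: a finite family of `k` residues mod `m` whose sums of two members with
distinct indices cover `ℤ/m` yields bases of `ℤ/(m N (N+1))` of size at most `k (N + K)`, for all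
`N ≡ 1` modulo a suitable `L`. -/
theorem transfer (m k : ℕ) (r : Fin k → ZMod m)
    (hr : ∀ h : ZMod m, ∃ i j, i ≠ j ∧ r i + r j = h) :
    ∃ L K : ℕ, 0 < L ∧ ∀ n : ℕ, ∃ A : Finset (ZMod (m * ((L * n + 1) * (L * n + 1 + 1)))),
      (∀ T, ∃ a ∈ A, ∃ b ∈ A, a + b = T) ∧ A.card ≤ k * (L * n + 1 + K) := by
  classical
  obtain ⟨c, L, K, hL, hlines⟩ := lines k
  refine ⟨L, 2 * K + 1, hL, ?_⟩
  intro n
  have hl := hlines n
  set N : ℕ := L * n + 1 with hNdef
  set q : ℕ := m * (N * (N + 1)) with hq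
  set u : Fin k → ℤ := fun i => ((N:ℤ) + 1) * c i - N with hu
  set I : Finset ℤ := Finset.Icc (-(K:ℤ)) (N + K) with hI
  choose r' hr' using fun i => ZMod.intCast_surjective (r i)
  refine ⟨(Finset.univ ×ˢ I).image (fun p : Fin k × ℤ => ((r' p.1 + m * (u p.1 * p.2) : ℤ) : ZMod q)),
    ?_, ?_⟩
  · intro T
    obtain ⟨T', rfl⟩ := ZMod.intCast_surjective T
    obtain ⟨i, j, hij, hsum⟩ := hr ((T' : ℤ) : ZMod m)
    obtain ⟨t, ht⟩ : (m:ℤ) ∣ T' - (r' i + r' j) := by
      rw [← ZMod.intCast_eq_intCast_iff_dvd_sub, Int.cast_add, hr', hr', hsum]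
    obtain ⟨x, y, hx, hy, hd⟩ := hl i j hij t
    refine ⟨_, Finset.mem_image.mpr ⟨(i, x), ?_, rfl⟩, _,
      Finset.mem_image.mpr ⟨(j, y), ?_, rfl⟩, ?_⟩
    · simp [hI, hx.1, hx.2]
    · simp [hI, hy.1, hy.2]
    · rw [← Int.cast_add, ZMod.intCast_eq_intCast_iff_dvd_sub]
      have hT : T' = r' i + r' j + m * t := by linarith
      have key : T' - (r' i + m * (u i * x) + (r' j + m * (u j * y)))
          = m * (t - (u i * x + u j * y)) := by
        rw [hT]; ring
      have hq' : ((m * ((L * n + 1) * (L * n + 1 + 1)) : ℕ) : ℤ) = m * ((N:ℤ) * (N + 1)) := by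
        rw [hNdef]; push_cast; ring
      rw [key, hq']
      exact mul_dvd_mul_left _ hd
  · refine le_trans Finset.card_image_le ?_
    rw [Finset.card_product, Finset.card_univ, Fintype.card_fin, hI, Int.card_Icc]
    apply Nat.mul_le_mul_left
    omega

/-- The variant for bases in which equal indices are allowed: it yields families whose sums with
distinct indices cover, with `2 √a N` additional elements. -/
theorem transfer_doubles (m a : ℕ) (r : Fin a → ZMod m)
    (hr : ∀ h : ZMod m, ∃ i j, r i + r j = h) :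
    ∃ L K : ℕ, 0 < L ∧ ∀ n s : ℕ, 0 < s → ∃ (k : ℕ)
      (f : Fin k → ZMod (m * ((L * n + 1) * (L * n + 1 + 1)))),
      (∀ h, ∃ i j, i ≠ j ∧ f i + f j = h) ∧
      k ≤ a * (L * n + 1 + K) + a * ((L * n + 1 + 1) / s + 1) + (L * n + 1) * s := by
  classical
  obtain ⟨c, L, K, hL, hlines⟩ := lines a
  refine ⟨L, 2 * K + 1, hL, ?_⟩
  intro n s hs
  have hl := hlines n
  set N : ℕ := L * n + 1 with hNdef
  set q : ℕ := m * (N * (N + 1)) with hq
  set u : Fin a → ℤ := fun i => ((N:ℤ) + 1) * c i - N with hu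
  choose r' hr' using fun i => ZMod.intCast_surjective (r i)
  set V : ℕ := (N + 1) / s + 1 with hV
  have hVs : N + 1 ≤ s * V := by
    have := Nat.div_add_mod (N + 1) s
    have h2 := Nat.mod_lt (N + 1) hs
    rw [hV]
    nlinarith
  let ι := (Fin a × Fin (N + (2 * K + 1))) ⊕ ((Fin a × Fin V) ⊕ Fin (N * s))
  let F : ι → ZMod q := Sum.elim
    (fun p => ((r' p.1 + m * (u p.1 * ((p.2 : ℕ) - (K:ℤ))) : ℤ) : ZMod q))
    (Sum.elim (fun p => ((2 * r' p.1 + m * (((N * s : ℕ) : ℤ) * (p.2 : ℕ)) : ℤ) : ZMod q))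
      (fun p => ((m * ((p : ℕ) : ℤ) : ℤ) : ZMod q)))
  have hF : ∀ h, ∃ i j, i ≠ j ∧ F i + F j = h := by
    intro T
    obtain ⟨T', rfl⟩ := ZMod.intCast_surjective T
    obtain ⟨i, j, hsum⟩ := hr ((T' : ℤ) : ZMod m)
    obtain ⟨t, ht⟩ : (m:ℤ) ∣ T' - (r' i + r' j) := by
      rw [← ZMod.intCast_eq_intCast_iff_dvd_sub, Int.cast_add, hr', hr', hsum]
    by_cases hij : i = j
    · subst hij
      -- write t mod N(N+1) in base N s
      have hNN : (0:ℤ) < (N:ℤ) * (N + 1) := by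
        have : 0 < N := by omega
        positivity
      set t0 : ℤ := t % ((N:ℤ) * (N + 1)) with ht0
      have ht0a : 0 ≤ t0 := Int.emod_nonneg _ (by omega)
      have ht0b : t0 < (N:ℤ) * (N + 1) := Int.emod_lt_of_pos _ hNN
      obtain ⟨w, hw⟩ := Int.eq_ofNat_of_zero_le ht0a
      have hNs : 0 < N * s := Nat.mul_pos (by omega) hs
      have hv : w / (N * s) < V := by
        rw [Nat.div_lt_iff_lt_mul hNs]
        have h1 : (w:ℤ) < (N:ℤ) * (N + 1) := by rw [← hw]; exact ht0b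
        have h2 : w < N * (N + 1) := by exact_mod_cast h1
        calc w < N * (N + 1) := h2
          _ ≤ N * (s * V) := Nat.mul_le_mul_left _ hVs
          _ = V * (N * s) := by ring
      refine ⟨Sum.inr (Sum.inl (i, ⟨w / (N * s), hv⟩)),
        Sum.inr (Sum.inr ⟨w % (N * s), Nat.mod_lt _ hNs⟩), (by intro h; cases (Sum.inr.inj h)), ?_⟩
      simp only [F, Sum.elim_inr, Sum.elim_inl]
      rw [← Int.cast_add, ZMod.intCast_eq_intCast_iff_dvd_sub]
      have hdm : ((w / (N * s) : ℕ) : ℤ) * ((N * s : ℕ) : ℤ) + ((w % (N * s) : ℕ) : ℤ) = w := by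
        exact_mod_cast Nat.div_add_mod' w (N * s)
      have hT : T' = r' i + r' i + m * t := by linarith
      have h3 := Int.emod_add_mul_ediv t ((N:ℤ) * (N + 1))
      rw [← ht0, hw] at h3
      have key : T' - (2 * r' i + m * (((N * s : ℕ) : ℤ) * ((w / (N * s) : ℕ) : ℤ))
            + m * ((w % (N * s) : ℕ) : ℤ))
          = m * (((N:ℤ) * (N + 1)) * (t / ((N:ℤ) * (N + 1)))) := by
        have h4 : ((N:ℤ) * (N + 1)) * (t / ((N:ℤ) * (N + 1)))
            = t - (((w / (N * s) : ℕ) : ℤ) * ((N * s : ℕ) : ℤ) + ((w % (N * s) : ℕ) : ℤ)) := by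
          rw [hdm]; linarith
        rw [h4, hT]; ring
      rw [key, hq]
      push_cast
      exact ⟨t / ((N:ℤ) * (N + 1)), by ring⟩
    · obtain ⟨x, y, hx, hy, hd⟩ := hl i j hij t
      obtain ⟨x', hx'⟩ := Int.eq_ofNat_of_zero_le (show 0 ≤ x + K by linarith [hx.1])
      obtain ⟨y', hy'⟩ := Int.eq_ofNat_of_zero_le (show 0 ≤ y + K by linarith [hy.1])
      have hxb : x' < N + (2 * K + 1) := by
        have := hx.2; omega
      have hyb : y' < N + (2 * K + 1) := by
        have := hy.2; omega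
      refine ⟨Sum.inl (i, ⟨x', hxb⟩), Sum.inl (j, ⟨y', hyb⟩), ?_, ?_⟩
      · intro h
        apply hij
        have := Sum.inl.inj h
        exact (Prod.mk.inj this).1
      · simp only [F, Sum.elim_inl]
        rw [← Int.cast_add, ZMod.intCast_eq_intCast_iff_dvd_sub]
        have hT : T' = r' i + r' j + m * t := by linarith
        have hxx : (x':ℤ) - K = x := by linarith
        have hyy : (y':ℤ) - K = y := by linarith
        have key : T' - (r' i + m * (u i * ((x':ℤ) - K)) + (r' j + m * (u j * ((y':ℤ) - K))))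
            = m * (t - (u i * x + u j * y)) := by
          rw [hT, hxx, hyy]; ring
        rw [key, hq]
        push_cast
        exact mul_dvd_mul_left _ hd
  refine ⟨Fintype.card ι, F ∘ (Fintype.equivFin ι).symm, ?_, ?_⟩
  · intro h
    obtain ⟨i, j, hij, hsum⟩ := hF h
    refine ⟨Fintype.equivFin ι i, Fintype.equivFin ι j, fun h' => hij ((Fintype.equivFin ι).injective h'), ?_⟩
    simp [hsum]
  · simp only [ι, Fintype.card_sum, Fintype.card_prod, Fintype.card_fin]
    omega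

end Pool.MP_68c422_nt.Tr
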