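import Mathlib
import Pool.Agent.Lib.MP_68c422_nt.Transfer

set_option autoImplicit false

open scoped Pointwise
open Filter

namespace Pool.MP_68c422_nt.Tr

/-- `k` residues `r i` modulo `m`, repetitions allowed, such that every residue is the sum of two
of them with distinct indices. -/
def StrictCover (m k : ℕ) (r : Fin k → ZMod m) : Prop :=
  ∀ h : ZMod m, ∃ i j, i ≠ j ∧ r i + r j = h

theorem sqrt_ge (m N : ℕ) : Real.sqrt m * N ≤ Real.sqrt ((m * (N * (N + 1)) : ℕ) : ℝ) := by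
  have h1 : Real.sqrt m * N = Real.sqrt (m * (N:ℝ)^2) := by
    rw [Real.sqrt_mul (Nat.cast_nonneg m), Real.sqrt_sq (Nat.cast_nonneg N)]
  rw [h1]
  apply Real.sqrt_le_sqrt
  push_cast
  have : (0:ℝ) ≤ N := Nat.cast_nonneg N
  have hm : (0:ℝ) ≤ m := Nat.cast_nonneg m
  apply mul_le_mul_of_nonneg_left _ hm
  nlinarith

theorem toUniv (q : ℕ+) (A : Finset (ZMod q)) (h : ∀ T, ∃ a ∈ A, ∃ b ∈ A, a + b = T) :
    A + A = Finset.univ := by
  rw [Finset.eq_univ_iff_forall]
  intro T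
  obtain ⟨x, hx, y, hy, hxy⟩ := h T
  exact Finset.mem_add.mpr ⟨x, hx, y, hy, hxy⟩

/-- One finite strict cover gives bases of size `k / √m * √q + O(1)` for infinitely many `q`. -/
theorem amplify (m k : ℕ) (hm : 0 < m) (r : Fin k → ZMod m) (hr : StrictCover m k r) :
    ∃ C : ℝ, ∃ᶠ q : ℕ+ in atTop, ∃ A : Finset (ZMod q), A + A = Finset.univ ∧
      (A.card : ℝ) ≤ k / Real.sqrt m * Real.sqrt q + C := by
  obtain ⟨L, K, hL, hA⟩ := transfer m k r hr
  refine ⟨k * K, ?_⟩
  rw [frequently_atTop]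
  intro a
  have hAa := hA a
  generalize hN : L * (a : ℕ) + 1 = N at hAa
  obtain ⟨A, hcov, hcard⟩ := hAa
  have hN0 : 0 < N := by omega
  have hpos : 0 < m * (N * (N + 1)) := by positivity
  refine ⟨⟨m * (N * (N + 1)), hpos⟩, ?_, A, ?_, ?_⟩
  · show (a : ℕ) ≤ m * (N * (N + 1))
    have h1 : (a : ℕ) ≤ N := by
      rw [← hN]
      have : (a : ℕ) ≤ L * a := Nat.le_mul_of_pos_left _ hL
      omega
    calc (a : ℕ) ≤ N := h1
      _ = 1 * (N * 1) := by ring
      _ ≤ m * (N * (N + 1)) := Nat.mul_le_mul hm (Nat.mul_le_mul_left _ (by omega))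
  · exact toUniv ⟨m * (N * (N + 1)), hpos⟩ A hcov
  · have h1 := sqrt_ge m N
    have h2 : (A.card : ℝ) ≤ k * (N + K) := by exact_mod_cast hcard
    have hs : 0 < Real.sqrt m := Real.sqrt_pos.mpr (by exact_mod_cast hm)
    have h3 : (N:ℝ) ≤ Real.sqrt ((m * (N * (N + 1)) : ℕ) : ℝ) / Real.sqrt m := by
      rw [le_div_iff₀ hs]; linarith
    have h4 : (k:ℝ) * N ≤ k / Real.sqrt m * Real.sqrt ((m * (N * (N + 1)) : ℕ) : ℝ) := by
      calc (k:ℝ) * N ≤ k * (Real.sqrt ((m * (N * (N + 1)) : ℕ) : ℝ) / Real.sqrt m) :=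
            mul_le_mul_of_nonneg_left h3 (Nat.cast_nonneg k)
        _ = _ := by ring
    have h5 : (A.card : ℝ) ≤ k / Real.sqrt m * Real.sqrt ((m * (N * (N + 1)) : ℕ) : ℝ) + k * K := by
      nlinarith
    exact h5

/-- From one basis of `ℤ/q` to a strict cover of almost the same quality. -/
theorem toStrict (q : ℕ) (hq : 0 < q) [NeZero q] (A : Finset (ZMod q)) (hA : A + A = Finset.univ)
    (η : ℝ) (hη : 0 < η) :
    ∃ m : ℕ, 0 < m ∧ ∃ (k : ℕ) (r : Fin k → ZMod m), StrictCover m k r ∧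
      (k : ℝ) ≤ ((A.card + 2 * Real.sqrt A.card + 1) / Real.sqrt q + η) * Real.sqrt m := by
  classical
  set a := A.card with ha
  have hr : ∀ h : ZMod q, ∃ i j : Fin a, ((A.equivFin.symm i : A) : ZMod q)
      + ((A.equivFin.symm j : A) : ZMod q) = h := by
    intro h
    have : h ∈ A + A := by rw [hA]; exact Finset.mem_univ h
    obtain ⟨x, hx, y, hy, hxy⟩ := Finset.mem_add.mp this
    refine ⟨A.equivFin ⟨x, hx⟩, A.equivFin ⟨y, hy⟩, ?_⟩
    simp [hxy]
  obtain ⟨L, K, hL, hT⟩ := transfer_doubles q a _ hr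
  set s := Nat.sqrt a + 1 with hs
  have hspos : 0 < s := by omega
  have hsR : Real.sqrt a ≤ s := by
    rw [hs]; push_cast
    exact Real.real_sqrt_le_nat_sqrt_succ
  have hsR2 : (s:ℝ) ≤ Real.sqrt a + 1 := by
    rw [hs]; push_cast
    have := Real.nat_sqrt_le_real_sqrt (a := a)
    linarith
  have hqs : 0 < Real.sqrt q := Real.sqrt_pos.mpr (by exact_mod_cast hq)
  -- choose `n` large
  obtain ⟨n, hn⟩ := exists_nat_ge ((a * K + Real.sqrt a + a) / (η * Real.sqrt q))
  have hTn := hT n s hspos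
  generalize hN : L * n + 1 = N at hTn
  obtain ⟨k, f, hf, hk⟩ := hTn
  have hnN : n ≤ N := by
    have : n ≤ L * n := Nat.le_mul_of_pos_left _ hL
    omega
  have hN1 : 0 < N := by omega
  refine ⟨q * (N * (N + 1)), by positivity, k, f, hf, ?_⟩
  have h1 := sqrt_ge q N
  have hkR : (k:ℝ) ≤ a * (N + K) + a * ((N + 1) / s + 1) + N * s := by
    have h2 : ((((N + 1) / s : ℕ)) : ℝ) ≤ ((N:ℝ) + 1) / s := by
      have := Nat.cast_div_le (α := ℝ) (m := N + 1) (n := s)
      push_cast at this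
      exact this
    have h3 : (k:ℝ) ≤ ((a * (N + K) + a * ((N + 1) / s + 1) + N * s : ℕ) : ℝ) := by
      exact_mod_cast hk
    push_cast at h3
    have h4 : (a:ℝ) * ((((N + 1) / s : ℕ)) : ℝ) ≤ a * (((N:ℝ) + 1) / s) :=
      mul_le_mul_of_nonneg_left h2 (Nat.cast_nonneg a)
    linarith
  have hsposR : (0:ℝ) < s := by exact_mod_cast hspos
  have has : (a:ℝ) / s ≤ Real.sqrt a := by
    rw [div_le_iff₀ hsposR]
    calc (a:ℝ) = Real.sqrt a * Real.sqrt a := (Real.mul_self_sqrt (Nat.cast_nonneg a)).symm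
      _ ≤ Real.sqrt a * s := mul_le_mul_of_nonneg_left hsR (Real.sqrt_nonneg _)
  have hN0 : (0:ℝ) ≤ N := Nat.cast_nonneg N
  have h5 : (a:ℝ) * (((N:ℝ) + 1) / s) ≤ Real.sqrt a * (N + 1) := by
    calc (a:ℝ) * (((N:ℝ) + 1) / s) = (a / s) * (N + 1) := by ring
      _ ≤ Real.sqrt a * (N + 1) := mul_le_mul_of_nonneg_right has (by linarith)
  have h6 : (N:ℝ) * s ≤ N * (Real.sqrt a + 1) := mul_le_mul_of_nonneg_left hsR2 hN0
  have h7 : (k:ℝ) ≤ N * (a + 2 * Real.sqrt a + 1) + (a * K + Real.sqrt a + a) := by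
    nlinarith
  have h8 : (a * K + Real.sqrt a + a) ≤ N * (η * Real.sqrt q) := by
    have h9 : (a * K + Real.sqrt a + a) ≤ n * (η * Real.sqrt q) := by
      rw [div_le_iff₀ (mul_pos hη hqs)] at hn
      exact hn
    have h10 : (n:ℝ) ≤ N := by exact_mod_cast hnN
    calc _ ≤ n * (η * Real.sqrt q) := h9
      _ ≤ N * (η * Real.sqrt q) := mul_le_mul_of_nonneg_right h10 (by positivity)
  have h11 : (k:ℝ) ≤ ((a + 2 * Real.sqrt a + 1) / Real.sqrt q + η) * (Real.sqrt q * N) := by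
    have : ((a + 2 * Real.sqrt a + 1) / Real.sqrt q + η) * (Real.sqrt q * N)
        = N * (a + 2 * Real.sqrt a + 1) + N * (η * Real.sqrt q) := by
      field_simp
    rw [this]
    linarith
  refine le_trans h11 ?_
  apply mul_le_mul_of_nonneg_left h1
  positivity

/-- The best asymptotic constant is the infimum of `k / √m` over finite strict covers. -/
theorem limit_iff (c : ℝ) :
    (∀ ε : ℝ, 0 < ε → ∃ᶠ q : ℕ+ in atTop, ∃ A : Finset (ZMod q), A + A = Finset.univ ∧
      (A.card : ℝ) / Real.sqrt q < c + ε) ↔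
    (∀ ε : ℝ, 0 < ε → ∃ m : ℕ, 0 < m ∧ ∃ (k : ℕ) (r : Fin k → ZMod m), StrictCover m k r ∧
      (k : ℝ) / Real.sqrt m < c + ε) := by
  constructor
  · intro h ε hε
    -- constants
    have h1 := h (ε / 4) (by linarith)
    rw [frequently_atTop] at h1
    -- choose `q` large
    have key : ∃ q : ℕ+, ∃ A : Finset (ZMod q), A + A = Finset.univ ∧
        (A.card : ℝ) / Real.sqrt q < c + ε / 4 ∧
        (2 * Real.sqrt A.card + 1) / Real.sqrt q < ε / 4 := by
      -- a lower bound for `c + ε/4`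
      obtain ⟨q0, _, A0, hA0, hA0c⟩ := h1 1
      have hc0 : 0 < c + ε / 4 := by
        refine lt_of_le_of_lt ?_ hA0c
        positivity
      set δ : ℝ := (ε / 8) / (c + ε / 4) with hδ
      have hδpos : 0 < δ := by positivity
      obtain ⟨B, hB⟩ := exists_nat_gt (((1 / δ + 1) / (ε / 8)) ^ 2)
      obtain ⟨q, hqB, A, hA, hAc⟩ := h1 ⟨B + 1, Nat.succ_pos B⟩
      refine ⟨q, A, hA, hAc, ?_⟩
      have hq : (0:ℝ) < Real.sqrt q := Real.sqrt_pos.mpr (by exact_mod_cast q.pos)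
      rw [div_lt_iff₀ hq] at hAc ⊢
      have hqb : (1 / δ + 1) / (ε / 8) < Real.sqrt q := by
        rw [Real.lt_sqrt (by positivity)]
        have : (B:ℝ) ≤ q := by
          have h2 : B + 1 ≤ (q:ℕ) := hqB
          exact_mod_cast (by omega : B ≤ (q:ℕ))
        linarith
      rw [div_lt_iff₀ (by positivity)] at hqb
      have hsq : Real.sqrt A.card * Real.sqrt A.card = A.card :=
        Real.mul_self_sqrt (Nat.cast_nonneg _)
      have hag : 2 * Real.sqrt A.card ≤ δ * A.card + 1 / δ := by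
        have h3 : 0 ≤ (δ * Real.sqrt A.card - 1) ^ 2 / δ := by positivity
        have h4 : (δ * Real.sqrt A.card - 1) ^ 2 / δ
            = δ * (Real.sqrt A.card * Real.sqrt A.card) - 2 * Real.sqrt A.card + 1 / δ := by
          field_simp
          ring
        rw [h4, hsq] at h3
        linarith
      have hδA : δ * A.card < (ε / 8) * Real.sqrt q := by
        have h5 : δ * A.card < δ * ((c + ε / 4) * Real.sqrt q) := mul_lt_mul_of_pos_left hAc hδpos
        have h6 : δ * ((c + ε / 4) * Real.sqrt q) = (ε / 8) * Real.sqrt q := by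
          rw [hδ, div_mul_eq_mul_div, div_eq_iff hc0.ne']; ring
        linarith
      nlinarith
    obtain ⟨q, A, hA, hAc, hAs⟩ := key
    obtain ⟨m, hm, k, r, hr, hk⟩ := toStrict q q.pos A hA (ε / 4) (by linarith)
    refine ⟨m, hm, k, r, hr, ?_⟩
    have hms : 0 < Real.sqrt m := Real.sqrt_pos.mpr (by exact_mod_cast hm)
    rw [div_lt_iff₀ hms]
    refine lt_of_le_of_lt hk ?_
    apply mul_lt_mul_of_pos_right _ hms
    have : ((A.card:ℝ) + 2 * Real.sqrt A.card + 1) / Real.sqrt q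
        = A.card / Real.sqrt q + (2 * Real.sqrt A.card + 1) / Real.sqrt q := by ring
    rw [this]
    linarith
  · intro h ε hε
    obtain ⟨m, hm, k, r, hr, hk⟩ := h (ε / 2) (by linarith)
    obtain ⟨C, hC⟩ := amplify m k hm r hr
    obtain ⟨B, hB⟩ := exists_nat_gt ((|C| / (ε / 2)) ^ 2)
    have hev : ∀ᶠ q : ℕ+ in atTop, (⟨B + 1, Nat.succ_pos B⟩ : ℕ+) ≤ q := eventually_ge_atTop _
    refine (hC.and_eventually hev).mono ?_
    rintro q ⟨⟨A, hA, hAc⟩, hq⟩
    refine ⟨A, hA, ?_⟩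
    have hqs : (0:ℝ) < Real.sqrt q := Real.sqrt_pos.mpr (by exact_mod_cast q.pos)
    rw [div_lt_iff₀ hqs]
    have hCq : |C| / (ε / 2) < Real.sqrt q := by
      rw [Real.lt_sqrt (by positivity)]
      have : (B:ℝ) ≤ q := by
        have h2 : B + 1 ≤ (q:ℕ) := hq
        exact_mod_cast (by omega : B ≤ (q:ℕ))
      linarith
    rw [div_lt_iff₀ (by positivity)] at hCq
    have h1 := le_abs_self C
    have h2 : (k:ℝ) / Real.sqrt m * Real.sqrt q < (c + ε / 2) * Real.sqrt q :=
      mul_lt_mul_of_pos_right hk hqs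
    nlinarith

/-- The exact form of the question, with `√2` replaced by any real number `c`. -/
theorem attain_iff (c : ℝ) :
    (∀ ε : ℝ, 0 < ε → ∃ᶠ q : ℕ+ in atTop, ∃ A : Finset (ZMod q), A + A = Finset.univ ∧
      |((A.card : ℝ) / Real.sqrt q - c)| < ε) ↔
    (∀ ε : ℝ, 0 < ε → ∃ m : ℕ, 0 < m ∧ ∃ (k : ℕ) (r : Fin k → ZMod m), StrictCover m k r ∧
      (k : ℝ) / Real.sqrt m < c + ε) := by
  rw [← limit_iff]
  constructor
  · intro h ε hε
    refine (h ε hε).mono ?_
    rintro q ⟨A, hA, hAc⟩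
    exact ⟨A, hA, by have := (abs_lt.mp hAc).2; linarith⟩
  · intro h ε hε
    obtain ⟨B, hB⟩ := exists_nat_gt ((1 / ε) ^ 2 + (|c| + 1) ^ 2)
    have hev : ∀ᶠ q : ℕ+ in atTop, (⟨B + 1, Nat.succ_pos B⟩ : ℕ+) ≤ q := eventually_ge_atTop _
    refine ((h ε hε).and_eventually hev).mono ?_
    rintro q ⟨⟨A, hA, hAc⟩, hq⟩
    have hqs : (0:ℝ) < Real.sqrt q := Real.sqrt_pos.mpr (by exact_mod_cast q.pos)
    have hqB : (B:ℝ) ≤ q := by
      have h2 : B + 1 ≤ (q:ℕ) := hq
      exact_mod_cast (by omega : B ≤ (q:ℕ))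
    have hC1 : 1 / ε < Real.sqrt q := by
      rw [Real.lt_sqrt (by positivity)]
      nlinarith [sq_nonneg (|c| + 1)]
    have hC2 : |c| + 1 < Real.sqrt q := by
      rw [Real.lt_sqrt (by positivity)]
      nlinarith [sq_nonneg (1 / ε)]
    rw [div_lt_iff₀ hε] at hC1
    have hsq : Real.sqrt q * Real.sqrt q = q := Real.mul_self_sqrt (Nat.cast_nonneg _)
    by_cases hbig : c - ε < (A.card : ℝ) / Real.sqrt q
    · exact ⟨A, hA, abs_lt.mpr ⟨by linarith, by linarith⟩⟩
    · push Not at hbig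
      have hbig' := hbig
      rw [div_le_iff₀ hqs] at hbig
      have hnn : 0 ≤ (c - ε) * Real.sqrt q := le_trans (Nat.cast_nonneg _) hbig
      set n : ℕ := ⌊(c - ε) * Real.sqrt q⌋₊ + 1 with hn
      have hn1 : (c - ε) * Real.sqrt q < n := by
        rw [hn]; push_cast
        exact Nat.lt_floor_add_one _
      have hn2 : (n:ℝ) ≤ (c - ε) * Real.sqrt q + 1 := by
        rw [hn]; push_cast
        have := Nat.floor_le hnn
        linarith
      have hAn : A.card ≤ n := by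
        have : (A.card : ℝ) < n := lt_of_le_of_lt hbig hn1
        exact_mod_cast this.le
      have hnq : n ≤ (Finset.univ : Finset (ZMod q)).card := by
        rw [Finset.card_univ, ZMod.card]
        have h3 : (n:ℝ) ≤ q := by
          have h4 : c ≤ |c| := le_abs_self c
          have h5 : 1 ≤ Real.sqrt q := by
            have := abs_nonneg c
            linarith
          nlinarith
        exact_mod_cast h3
      obtain ⟨D, hAD, _, hDc⟩ := Finset.exists_subsuperset_card_eq (Finset.subset_univ A) hAn hnq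
      refine ⟨D, ?_, ?_⟩
      · apply Finset.eq_univ_of_forall
        intro x
        have : x ∈ A + A := by rw [hA]; exact Finset.mem_univ x
        exact Finset.add_subset_add hAD hAD this
      · rw [hDc]
        have h6 : c - ε < (n:ℝ) / Real.sqrt q := by
          rw [lt_div_iff₀ hqs]; exact hn1
        have h7 : (n:ℝ) / Real.sqrt q < c + ε := by
          rw [div_lt_iff₀ hqs]
          nlinarith
        exact abs_lt.mpr ⟨by linarith, by linarith⟩

end Pool.MP_68c422_nt.Tr
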