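import Mathlib

/-!
# Representation counts of bases of order two of finite abelian groups
-/

namespace Pool.MP_68c422_nt.Rep39

open Finset

variable {G : Type*} [AddCommGroup G] [Fintype G] [DecidableEq G]

/-- Number of `a ∈ A` with `s - a ∈ A`. -/
def rp (A : Finset G) (s : G) : ℕ := (A.filter fun a => s - a ∈ A).card

/-- Number of `a ∈ A` with `a + d ∈ A`. -/
def rm (A : Finset G) (d : G) : ℕ := (A.filter fun a => a + d ∈ A).card

/-- The indicator function. -/
noncomputable def ind (A : Finset G) (x : G) : ℝ := if x ∈ A then 1 else 0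

theorem rp_eq (A : Finset G) (s : G) : (rp A s : ℝ) = ∑ a, ind A a * ind A (s - a) := by
  unfold rp ind
  rw [card_filter]
  push_cast
  rw [← Finset.sum_filter_add_sum_filter_not univ (fun a => a ∈ A)]
  rw [Finset.sum_eq_zero (s := univ.filter fun a => ¬ a ∈ A) (fun a ha => by
    rw [mem_filter] at ha; simp [ha.2]), add_zero]
  have : (univ.filter fun a => a ∈ A) = A := by ext; simp
  rw [this]
  exact sum_congr rfl fun a ha => by simp [ha]

theorem rm_eq (A : Finset G) (d : G) : (rm A d : ℝ) = ∑ a, ind A a * ind A (a + d) := by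
  unfold rm ind
  rw [card_filter]
  push_cast
  rw [← Finset.sum_filter_add_sum_filter_not univ (fun a => a ∈ A)]
  rw [Finset.sum_eq_zero (s := univ.filter fun a => ¬ a ∈ A) (fun a ha => by
    rw [mem_filter] at ha; simp [ha.2]), add_zero]
  have : (univ.filter fun a => a ∈ A) = A := by ext; simp
  rw [this]
  exact sum_congr rfl fun a ha => by simp [ha]

theorem sum_ind (A : Finset G) : ∑ a, ind A a = A.card := by
  unfold ind; simp

theorem sum_rp (A : Finset G) : ∑ s, (rp A s : ℝ) = (A.card : ℝ) ^ 2 := by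
  simp only [rp_eq]
  rw [sum_comm]
  have : ∀ a, ∑ s, ind A a * ind A (s - a) = ind A a * A.card := by
    intro a
    rw [← mul_sum]
    congr 1
    rw [← sum_ind]
    exact Fintype.sum_equiv (Equiv.subRight a) _ _ (fun s => rfl)
  simp only [this]
  rw [← sum_mul, sum_ind, sq]

theorem sum_rm (A : Finset G) : ∑ d, (rm A d : ℝ) = (A.card : ℝ) ^ 2 := by
  simp only [rm_eq]
  rw [sum_comm]
  have : ∀ a, ∑ s, ind A a * ind A (a + s) = ind A a * A.card := by
    intro a
    rw [← mul_sum]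
    congr 1
    rw [← sum_ind]
    exact Fintype.sum_equiv (Equiv.addLeft a) _ _ (fun s => rfl)
  simp only [this]
  rw [← sum_mul, sum_ind, sq]

theorem rm_zero (A : Finset G) : rm A 0 = A.card := by
  unfold rm
  congr 1
  ext a; simp

/-- The energy identity. -/
theorem energy (A : Finset G) : ∑ s, (rp A s : ℝ) ^ 2 = ∑ d, (rm A d : ℝ) ^ 2 := by
  have h1 : ∀ s, (rp A s : ℝ) ^ 2 =
      ∑ a, ∑ d, ind A a * ind A (s - a) * (ind A (a + d) * ind A (s - (a + d))) := by
    intro s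
    rw [sq, rp_eq, Finset.sum_mul]
    refine sum_congr rfl fun a _ => ?_
    rw [Finset.mul_sum]
    refine (Fintype.sum_equiv (Equiv.addLeft a) _ _ (fun d => rfl)).symm
  have h2 : ∀ d, (rm A d : ℝ) ^ 2 =
      ∑ a, ∑ y, ind A a * ind A (a + d) * (ind A y * ind A (y + d)) := by
    intro d
    rw [sq, rm_eq, Finset.sum_mul]
    refine sum_congr rfl fun a _ => ?_
    rw [Finset.mul_sum]
  simp only [h1, h2]
  rw [sum_comm, sum_comm (f := fun d a => ∑ y, ind A a * ind A (a + d) * (ind A y * ind A (y + d)))]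
  refine sum_congr rfl fun a _ => ?_
  rw [sum_comm]
  refine sum_congr rfl fun d _ => ?_
  refine Fintype.sum_equiv (Equiv.subRight (a + d)) _ _ (fun s => ?_)
  have e1 : s - (a + d) + d = s - a := by abel
  simp only [Equiv.subRight_apply, e1]
  ring

/-- The lower bound for the energy. -/
theorem energy_lower (A : Finset G) :
    ((A.card : ℝ) ^ 2 - A.card) ^ 2 ≤
      ((Fintype.card G : ℝ) - 1) * (∑ s, (rp A s : ℝ) ^ 2 - (A.card : ℝ) ^ 2) := by
  have h1 : ∑ d ∈ univ.erase (0 : G), (rm A d : ℝ) = (A.card : ℝ) ^ 2 - A.card := by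
    have := Finset.add_sum_erase univ (fun d => (rm A d : ℝ)) (mem_univ (0 : G))
    rw [sum_rm, rm_zero] at this
    linarith
  have h2 : ∑ d ∈ univ.erase (0 : G), (rm A d : ℝ) ^ 2 =
      ∑ s, (rp A s : ℝ) ^ 2 - (A.card : ℝ) ^ 2 := by
    have := Finset.add_sum_erase univ (fun d => (rm A d : ℝ) ^ 2) (mem_univ (0 : G))
    rw [← energy, rm_zero] at this
    linarith
  have h3 := sq_sum_le_card_mul_sum_sq (s := univ.erase (0 : G)) (f := fun d => (rm A d : ℝ))
  rw [h1, h2, card_erase_of_mem (mem_univ _), card_univ] at h3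
  have h4 : 1 ≤ Fintype.card G := Fintype.card_pos
  rw [Nat.cast_sub h4] at h3
  simpa using h3

/-- `A + A = G`. -/
def Bas (A : Finset G) : Prop := ∀ s, ∃ a ∈ A, ∃ b ∈ A, a + b = s

theorem one_le_rp {A : Finset G} (h : Bas A) (s : G) : 1 ≤ rp A s := by
  obtain ⟨a, ha, b, hb, hab⟩ := h s
  refine card_pos.mpr ⟨a, ?_⟩
  rw [mem_filter]
  refine ⟨ha, ?_⟩
  rw [← hab]; simpa using hb

/-- The sums with exactly one representation. -/
def S1 (A : Finset G) : Finset G := univ.filter fun s => rp A s = 1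

theorem card_S1 (A : Finset G) : (S1 A).card ≤ A.card := by
  have h : S1 A ⊆ A.image (fun a => a + a) := by
    intro s hs
    unfold S1 rp at hs
    rw [mem_filter] at hs
    obtain ⟨a, ha⟩ := card_eq_one.mp hs.2
    have h1 : a ∈ A.filter fun a => s - a ∈ A := by rw [ha]; simp
    rw [mem_filter] at h1
    have h2 : s - a ∈ A.filter fun a => s - a ∈ A := by
      rw [mem_filter]
      refine ⟨h1.2, ?_⟩
      simpa using h1.1
    rw [ha, mem_singleton] at h2
    rw [mem_image]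
    refine ⟨a, h1.1, ?_⟩
    rw [sub_eq_iff_eq_add] at h2
    exact h2.symm
  exact (card_le_card h).trans card_image_le

theorem abs_sub_two {A : Finset G} (h : Bas A) (s : G) :
    |(rp A s : ℝ) - 2| = ((rp A s : ℝ) - 2) + 2 * (if rp A s = 1 then 1 else 0) := by
  have h1 := one_le_rp h s
  by_cases h2 : rp A s = 1
  · rw [h2]; norm_num
  · have h3 : 2 ≤ rp A s := by omega
    have h4 : (2 : ℝ) ≤ rp A s := by exact_mod_cast h3
    rw [if_neg h2, abs_of_nonneg (by linarith)]; ring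

theorem sum_sub_two (A : Finset G) :
    ∑ s, ((rp A s : ℝ) - 2) = (A.card : ℝ) ^ 2 - 2 * Fintype.card G := by
  rw [sum_sub_distrib, sum_rp]
  simp [mul_comm]

theorem sum_abs {A : Finset G} (h : Bas A) :
    ∑ s, |(rp A s : ℝ) - 2| =
      (A.card : ℝ) ^ 2 - 2 * Fintype.card G + 2 * (S1 A).card := by
  simp only [abs_sub_two h]
  rw [sum_add_distrib, sum_sub_two, ← mul_sum]
  unfold S1
  congr 2
  rw [card_filter]; push_cast; rfl

theorem sum_abs_le {A : Finset G} (h : Bas A) :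
    ∑ s, |(rp A s : ℝ) - 2| ≤ (A.card : ℝ) ^ 2 - 2 * Fintype.card G + 2 * A.card := by
  rw [sum_abs h]
  have : ((S1 A).card : ℝ) ≤ A.card := by exact_mod_cast card_S1 A
  linarith

/-- positive part -/
theorem sum_pos {A : Finset G} (h : Bas A) :
    ∑ s, max ((rp A s : ℝ) - 2) 0 =
      (A.card : ℝ) ^ 2 - 2 * Fintype.card G + (S1 A).card := by
  have h1 : ∀ s, max ((rp A s : ℝ) - 2) 0 =
      (((rp A s : ℝ) - 2) + |(rp A s : ℝ) - 2|) / 2 := by
    intro s
    rcases le_total 0 ((rp A s : ℝ) - 2) with h2 | h2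
    · rw [max_eq_left h2, abs_of_nonneg h2]; ring
    · rw [max_eq_right h2, abs_of_nonpos h2]; ring
  simp only [h1]
  rw [← sum_div, sum_add_distrib, sum_sub_two, sum_abs h]
  ring

theorem sum_sq (A : Finset G) :
    ∑ s, ((rp A s : ℝ) - 2) ^ 2 =
      ∑ s, (rp A s : ℝ) ^ 2 - 4 * (A.card : ℝ) ^ 2 + 4 * Fintype.card G := by
  have h1 : ∀ s, ((rp A s : ℝ) - 2) ^ 2 = (rp A s : ℝ) ^ 2 - 4 * rp A s + 4 := fun s => by ring
  simp only [h1]
  rw [sum_add_distrib, sum_sub_distrib, ← mul_sum, sum_rp]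
  simp [mul_comm]

/-- **The counting bound with its sharp second term.** -/
theorem two_card_le {A : Finset G} (h : Bas A) : 2 * Fintype.card G ≤ A.card ^ 2 + 2 := by
  by_contra hlt
  push Not at hlt
  obtain ⟨k, hk⟩ : ∃ k : ℝ, k = A.card := ⟨_, rfl⟩
  obtain ⟨q, hq⟩ : ∃ q : ℝ, q = Fintype.card G := ⟨_, rfl⟩
  have hlt' : k ^ 2 + 3 ≤ 2 * q := by
    rw [hk, hq]
    have : A.card ^ 2 + 3 ≤ 2 * Fintype.card G := by omega
    exact_mod_cast this
  have h1k : 1 ≤ A.card := by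
    obtain ⟨a, ha, -⟩ := h 0
    exact card_pos.mpr ⟨a, ha⟩
  have hk1 : 1 ≤ k := by rw [hk]; exact_mod_cast h1k
  -- `k ≥ 2`
  have hk2 : 2 ≤ k := by
    by_contra hk2
    push Not at hk2
    have h2 : A.card = 1 := by
      have : A.card < 2 := by
        have h3 : (A.card : ℝ) < 2 := by rw [← hk]; exact hk2
        exact_mod_cast h3
      omega
    obtain ⟨a, ha⟩ := card_eq_one.mp h2
    have h3 : Fintype.card G = 1 := by
      rw [Fintype.card_eq_one_iff]
      refine ⟨a + a, fun s => ?_⟩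
      obtain ⟨x, hx, y, hy, hxy⟩ := h s
      rw [ha, mem_singleton] at hx hy
      rw [← hxy, hx, hy]
    rw [h2, h3] at hlt
    omega
  obtain ⟨N1, hN1⟩ : ∃ N : ℝ, N = (S1 A).card := ⟨_, rfl⟩
  have hN1k : N1 ≤ k := by rw [hN1, hk]; exact_mod_cast card_S1 A
  have hN10 : 0 ≤ N1 := by rw [hN1]; exact Nat.cast_nonneg _
  -- upper bound for the sum of squares
  have hup : ∑ s, ((rp A s : ℝ) - 2) ^ 2 ≤ (k - 2) * (k ^ 2 - 2 * q + N1) + N1 := by
    have h1 : ∀ s, ((rp A s : ℝ) - 2) ^ 2 ≤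
        (k - 2) * max ((rp A s : ℝ) - 2) 0 + (if rp A s = 1 then 1 else 0) := by
      intro s
      have h2 := one_le_rp h s
      have h3 : (rp A s : ℝ) ≤ k := by
        rw [hk]; exact_mod_cast card_filter_le _ _
      by_cases h4 : rp A s = 1
      · rw [h4]
        norm_num
      · have h5 : 2 ≤ rp A s := by omega
        have h6 : (2 : ℝ) ≤ rp A s := by exact_mod_cast h5
        rw [if_neg h4, max_eq_left (by linarith)]
        nlinarith
    calc ∑ s, ((rp A s : ℝ) - 2) ^ 2 ≤ ∑ s, ((k - 2) * max ((rp A s : ℝ) - 2) 0 +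
          (if rp A s = 1 then 1 else 0)) := sum_le_sum fun s _ => h1 s
      _ = _ := by
          rw [sum_add_distrib, ← mul_sum, sum_pos h, ← hk, ← hq, ← hN1]
          congr 1
          rw [hN1]; unfold S1; rw [card_filter]; push_cast; rfl
  have hlow := energy_lower A
  rw [sum_sq, ← hk, ← hq] at hup
  rw [← hk, ← hq] at hlow
  obtain ⟨T, hT⟩ : ∃ T, T = ∑ s, (rp A s : ℝ) ^ 2 := ⟨_, rfl⟩
  rw [← hT] at hup hlow
  -- now algebra
  have hq1 : 0 < q - 1 := by nlinarith
  obtain ⟨D, hD⟩ : ∃ D, D = 2 * q - k ^ 2 := ⟨_, rfl⟩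
  have hD3 : 3 ≤ D := by rw [hD]; linarith
  have hq2 : q = (k ^ 2 + D) / 2 := by rw [hD]; ring
  have h5 : T ≤ (k - 2) * (k - D) + k + 4 * k ^ 2 - 4 * q := by
    have : (k - 2) * (k ^ 2 - 2 * q + N1) + N1 ≤ (k - 2) * (k - D) + k := by
      rw [hD]; nlinarith
    linarith
  have h6 : (k ^ 2 - k) ^ 2 ≤ (q - 1) * ((k - 2) * (k - D) + k + 4 * k ^ 2 - 4 * q - k ^ 2) := by
    refine hlow.trans (mul_le_mul_of_nonneg_left (by linarith) hq1.le)
  have h7 : (k - 2) * (k - D) + k + 4 * k ^ 2 - 4 * q - k ^ 2 = k * (2 * k - 1 - D) := by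
    rw [hD]; ring
  rw [h7] at h6
  have h8 : k * (k * (k - 1) ^ 2) ≤ k * ((q - 1) * (2 * k - 1 - D)) := by
    calc k * (k * (k - 1) ^ 2) = (k ^ 2 - k) ^ 2 := by ring
      _ ≤ (q - 1) * (k * (2 * k - 1 - D)) := h6
      _ = _ := by ring
  have h9 := le_of_mul_le_mul_left h8 (by linarith)
  rw [hq2] at h9
  nlinarith [mul_nonneg (sub_nonneg.mpr hD3) (mul_nonneg (show (0:ℝ) ≤ k by linarith)
    (sub_nonneg.mpr hk2)), mul_nonneg (sub_nonneg.mpr hD3) (show (0 : ℝ) ≤ D by linarith)]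

end Pool.MP_68c422_nt.Rep39
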